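import Pool.Agent.Helper66.T5.PpNum
import Pool.Agent.Helper75.T5.CardJx
import Pool.Agent.Helper57.T5.BotNum
import Pool.Agent.Helper87.SL.Inst

/-!
# T5a, block NEAR, line NE9: `hL` for the random windows, small distance
-/

set_option autoImplicit false

namespace Pool.Agent.Helper66.T5

open Finset Pool.Agent.Helper27.T4 Pool.Agent.Helper27.T5 Pool.Agent.Helper22.HW
  Pool.Agent.Helper22.SL Pool.Agent.Helper57.T5 Pool.Agent.Helper11.T5 Pool.Agent.Helper63.T5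
  Pool.Agent.Helper39.T5 Pool.Agent.Helper22.NEAR Pool.Agent.Helper30.T5
open Pool.Agent.Helper5.ET (Nj era)
open Pool.Agent.Helper42.T5.Pr (PrLe)

/-- the last windows are the random windows -/
theorem Bw_last (m k l : ℕ) (w : Key → ℕ) : Bw m k l k w = Vw m k l w := by
  classical
  unfold Bw
  rw [Zw_last, image_image]
  have h0 : 0 < Nj l * LL (QQ m (era l)) k := Nat.mul_pos (Nj_pos1 _) (LLQ_pos _ _ _)
  refine (image_congr (g := fun v => v) ?_).trans image_id'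
  intro v _
  show Nj l * LA m k (era l) * v / (Nj l * LL (QQ m (era l)) k) = v
  rw [LA_eq, Nat.mul_div_cancel_left _ h0]

/-- a polynomial against an exponential -/
theorem exists_late_W (C : ℝ) : ∃ W0 : ℕ, ∀ W : ℕ, W0 ≤ W →
    C * (W : ℝ) ^ 7 * Real.exp (-((W : ℝ) / 40)) ≤ 1 := by
  have h1 : Filter.Tendsto (fun x : ℝ => x ^ 7 * Real.exp (-x)) Filter.atTop (nhds 0) :=
    Real.tendsto_pow_mul_exp_neg_atTop_nhds_zero 7
  have h2 : Filter.Tendsto (fun W : ℕ => (W : ℝ) / 40) Filter.atTop Filter.atTop :=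
    tendsto_natCast_atTop_atTop.atTop_div_const (by norm_num)
  have h3 := (h1.comp h2).const_mul (C * 40 ^ 7)
  rw [mul_zero] at h3
  obtain ⟨W0, hW0⟩ := Filter.eventually_atTop.1 (h3.eventually_le_const (show (0 : ℝ) < 1 by norm_num))
  refine ⟨W0, fun W hW => ?_⟩
  have h4 := hW0 W hW
  simp only [Function.comp_apply] at h4
  refine le_trans (le_of_eq ?_) h4
  rw [div_pow]
  ring

theorem exp_half_lam (n : ℕ) : Real.exp ((n : ℝ) * lam / 2) = 1000 ^ n := by
  have h1 : Real.exp (lam / 2) = 1000 := by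
    have h2 : lam = Real.log (10 ^ 6) := rfl
    have h3 : Real.log ((10 : ℝ) ^ 6) = 2 * Real.log 1000 := by
      rw [show (10 : ℝ) ^ 6 = 1000 ^ 2 by norm_num, Real.log_pow]
      norm_num
    rw [h2, h3, mul_div_cancel_left₀ _ (by norm_num : (2 : ℝ) ≠ 0), Real.exp_log (by norm_num)]
  rw [← h1, ← Real.exp_nat_mul]
  congr 1
  ring

/-- the bottom lemma for one context -/
theorem bot_inst {k j t l' l : ℕ} (h : PD (k + 2) k j (t + 1) l' l) {P : Pr Key}
    (hP : P.Ok (Mk (k + 2))) {q : ℕ} (hMq : P.M = P.M' * q) (hq : 0 < q) {I : ℕ}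
    {X Ir : ℕ → ℕ} (hX : Tg P I X Ir) {K : Finset Key} (hK : keysOf (k + 2) k l ⊆ K)
    (hK' : keysOf (k + 2) k l' ⊆ K) {v : ℕ} (hv : vlo (k + 2) k j = v) (hv1 : 1 ≤ v)
    (tt t0 : ℕ) :
    PrLe (Mk (k + 2)) K (fun w => (2 * (Ir P.h * t0) + 1) * tt <
      PP P I X (Vw (k + 2) k l w) (Vw (k + 2) k l' w))
      ((((I * (4 * (P.F P.h / P.F' P.h)) : ℕ) : ℝ) *
        (((vhi (k + 2) k l' / q + 1 : ℕ) : ℝ) * ((2 / Real.sqrt v) * (2 / Real.sqrt v)))) ^ tt /
          (tt.factorial : ℝ) +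
        (vhi (k + 2) k l' * (((arcL P : ℝ) * (2 / Real.sqrt v)) ^ (t0 + 1) /
          ((t0 + 1).factorial : ℝ)) +
        vhi (k + 2) k l * ((((arcL P / q + 1 : ℕ) : ℝ) * (2 / Real.sqrt v)) ^ (t0 + 1) /
          ((t0 + 1).factorial : ℝ)))) := by
  have e1 : vlo (k + 2) k (era l) = v := by rw [h.el]; exact hv
  have e2 : vlo (k + 2) k (era l') = v := by rw [h.el']; exact hv
  have key := bot_arc (M := Mk (k + 2)) (K := K) (fun q => Mk_pos (k + 2) q)
    (winD_two (m := k + 2) (k := k) (ne_of_lt h.lt) (BK_of hK) (BK_of hK'))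
    (by simp only [cond_false]; rw [e1]; exact hv1) (by simp only [cond_true]; rw [e2]; exact hv1)
    hP hMq hq ({()} : Finset Unit) (fun _ => X) (fun _ _ => hX) tt t0
    (((I * (4 * (P.F P.h / P.F' P.h)) : ℕ) : ℝ) *
        (((vhi (k + 2) k l' / q + 1 : ℕ) : ℝ) * ((2 / Real.sqrt v) * (2 / Real.sqrt v))))
    ((arcL P : ℝ) * (2 / Real.sqrt v)) (((arcL P / q + 1 : ℕ) : ℝ) * (2 / Real.sqrt v))
    (by simp only [cond_true, cond_false]; rw [e1, e2])
    (by simp only [cond_true]; rw [e2])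
    (by simp only [cond_false]; rw [e1])
  refine Pool.Agent.Helper42.T5.Pr.PrLe_mono ?_ (le_of_eq ?_) key
  · intro r _ hr
    exact ⟨(), mem_singleton_self _, hr⟩
  · rw [card_singleton, Nat.cast_one, one_mul]
    rfl

/-- one context -/
theorem pp_one (k : ℕ) : ∃ j0 c0 : ℕ, ∀ j t l' l, j0 ≤ j → PD (k + 2) k j (t + 1) l' l →
    ef (k + 2) (t + 1) l' = ef (k + 2) (t + 1) l → CaseBot c0 k j t l' l → ∀ K,
    keysOf (k + 2) k l ⊆ K → keysOf (k + 2) k l' ⊆ K → ∀ c ∈ Jx (k + 2) j t l' l,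
    PrLe (Mk (k + 2)) K (fun w => Real.exp (-1) < PPx (k + 2) k j t l' l w c)
      (3 * Real.exp (-(100 * (rt (k + 2) j : ℝ) ^ 3 * W (k + 2) j (k + 1)))) := by
  classical
  set K0 : ℝ := (200 * (spb k : ℝ) ^ 2) ^ 3 with hK0
  have hsp1 : (1 : ℝ) ≤ spb k := by exact_mod_cast one_le_spb k
  have hK1 : (1 : ℝ) ≤ K0 := by
    apply one_le_pow₀
    have a1 : (1 : ℝ) ≤ (spb k : ℝ) ^ 2 := one_le_pow₀ hsp1
    linarith only [a1]
  obtain ⟨W0, hW0⟩ := exists_late_W (30 * 720000000 * 200 * K0)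
  obtain ⟨j1, h1⟩ := exists_lateC (k + 2) k le_rfl (Pool.Agent.Helper87.SL.cH k 0)
  obtain ⟨j2, h2⟩ := exists_Lastw (k + 2) k le_rfl
  obtain ⟨j3, h3⟩ := Pool.Agent.Helper30.T5.exists_le_rt (show 0 < k + 2 by omega) W0
  obtain ⟨c0, hc0⟩ : ∃ c0 : ℕ, 30 * 720000000 * 200 * K0 ≤ (512 : ℝ) ^ c0 := by
    obtain ⟨c0, hc0⟩ := pow_unbounded_of_one_lt (30 * 720000000 * 200 * K0)
      (show (1 : ℝ) < 512 by norm_num)
    exact ⟨c0, hc0.le⟩
  refine ⟨max (max j1 j2) j3, c0, fun j t l' l hj h hc hcase K hK hK' c hcJ => ?_⟩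
  have hL := h1 j (le_trans (le_trans (le_max_left _ _) (le_max_left _ _)) hj)
  have hLast := h2 j (le_trans (le_trans (le_max_right _ _) (le_max_left _ _)) hj)
  have hrt := h3 j (le_trans (le_max_right _ _) hj)
  obtain ⟨hsb, hD7, hDlow⟩ := hcase
  -- the instance
  have hF1 : Nj (ef (k + 2) (t + 1) l) ∣ FF (k + 2) l t := dvd_rfl
  have hF2 : FF (k + 2) l t ∣ 4 * Nj (ef (k + 2) (t + 1) l) := dvd_mul_left _ _
  have hM : Mt' (PN (k + 2) k j t l' l) (k + 2) k j (t + 1) l' l := h.mtD hF1 hF2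
  have hP : (PN (k + 2) k j t l' l).Ok (Mk (k + 2)) := h.okD hL.1 hF1 hF2
  have hF0 : (PN (k + 2) k j t l' l).F 0 = Nj (ef (k + 2) (t + 1) l) := rfl
  have hcE : c.2.1.Coprime (pj j) := (mem_filter.1 hcJ).2
  have hX : Tg (PN (k + 2) k j t l' l) (nTx (k + 2) k j t l' l c) (XTx (k + 2) k j t l' l c)
      (IrD (k + 2) j (t + 1) l' (In j l' l)) :=
    Pool.Agent.Helper39.SL.tg_XT hP (I := In j l' l) (D := DD (k + 2) j t l' l)
      (κ₂ := c.2.2.1) (n := bm (k + 2) j t l' * c.2.2.2) (cl := clx c)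
      (Ir := IrD (k + 2) j (t + 1) l' (In j l' l)) (pow_pos (pj_pos j) _) (hM.hF0 h hF0)
      (by
        have e : (PN (k + 2) k j t l' l).M' * (PN (k + 2) k j t l' l).L0 = bm (k + 2) j t l' := by
          unfold bm
          rw [← h.el]
          rfl
        rw [e]
        exact dvd_mul_right _ _)
      (fun r hr x => hM.hIr h hc hF0 hcE _ hr x)
  have hNL := Pool.Agent.Helper87.SL.numL h hM (CI := 0) le_rfl hL
  have hPh : (PN (k + 2) k j t l' l).h = hb (k + 2) k j t l' l := rfl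
  have hah : t + 1 + (PN (k + 2) k j t l' l).h = k + 1 := by
    rw [hPh]
    unfold sb at hsb
    omega
  have hhp : 1 ≤ (PN (k + 2) k j t l' l).h := hh_pos (k + 2) k j (t + 1) (l - l')
  set P := PN (k + 2) k j t l' l with hPdef
  rw [hah] at hNL
  set lp : ℝ := Real.log (pj j) with hlp
  set d : ℝ := ((l - l' : ℕ) : ℝ) * lp with hd
  set W1 : ℝ := (W (k + 2) j (k + 1) : ℝ) with hW1
  set w1 : ℝ := W1 * lam with hw1
  set s : ℝ := ((ef (k + 2) (k + 1) l - l : ℕ) : ℝ) * lp with hs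
  set s' : ℝ := ((ef (k + 2) (k + 1) l' - l' : ℕ) : ℝ) * lp with hs'
  -- logarithms
  have hlam := lam_gt
  have hlam2 := lam_lt
  have hlp1 : lam ≤ lp := lam_le_pj j
  have hlp2 : lp ≤ (1 + 1 / 100000) * lam := log_pj_le j
  have hp0 : (0 : ℝ) < pj j := by exact_mod_cast pj_pos j
  have hexp : ∀ n : ℕ, Real.exp ((n : ℝ) * lp) = (pj j : ℝ) ^ n := by
    intro n
    rw [hlp, ← Real.log_pow, Real.exp_log (pow_pos hp0 n)]
  have hW10 : (10 : ℝ) ^ 7 ≤ W1 := by
    rw [hW1]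
    exact_mod_cast hLast.big
  have hW13 : 13 * W1 ≤ w1 := by
    rw [hw1, mul_comm]
    exact mul_le_mul_of_nonneg_left (by linarith only [hlam]) (by linarith only [hW10])
  have hw14 : w1 ≤ 14 * W1 := by
    rw [hw1, mul_comm 14 W1]
    exact mul_le_mul_of_nonneg_left (by linarith only [hlam2]) (by linarith only [hW10])
  have hw0 : 0 ≤ w1 := by linarith
  -- positions
  have hlt := h.lt
  obtain ⟨g1, g2, g3⟩ := h.lead (i := k + 1) le_rfl
  obtain ⟨g1', g2', g3'⟩ := h.lead' (i := k + 1) le_rfl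
  obtain ⟨m1, m2, m3⟩ := h.mu (i := k + 1) (by have := h.ak; omega) le_rfl
  have hPP := h.PPm (i := k + 1) le_rfl
  have hdw : d ≤ 0.351 * w1 := by
    have e1 : (20 : ℝ) * ((l - l' : ℕ) : ℝ) ≤ 7 * W1 := by
      rw [hW1]
      exact_mod_cast hD7.le
    rw [hd, hw1]
    have e2 : (0 : ℝ) ≤ ((l - l' : ℕ) : ℝ) := Nat.cast_nonneg _
    calc ((l - l' : ℕ) : ℝ) * lp ≤ ((l - l' : ℕ) : ℝ) * ((1 + 1 / 100000) * lam) :=
          mul_le_mul_of_nonneg_left hlp2 e2
      _ ≤ (7 * W1 / 20) * ((1 + 1 / 100000) * lam) :=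
          mul_le_mul_of_nonneg_right (by linarith) (by linarith)
      _ ≤ 0.351 * (W1 * lam) := by
          have e3 : 0 ≤ W1 * lam :=
            mul_nonneg (by linarith only [hW10]) (by linarith only [hlam])
          linarith only [e3]
  have hd0 : 0 ≤ d := hNL.D0
  have hφexp : s' - s - d = -(((ef (k + 2) (k + 1) l - ef (k + 2) (k + 1) l' : ℕ) : ℝ) * lp) := by
    rw [hs, hs', hd, Nat.cast_sub g1.le, Nat.cast_sub g1'.le, Nat.cast_sub hlt.le,
      Nat.cast_sub (by omega)]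
    ring
  have hφw : Real.exp (s' - s - d) ≤ Real.exp (-(w1 / 512)) := by
    apply Real.exp_le_exp.2
    rw [hφexp]
    have e1 : W1 / 512 ≤ ((ef (k + 2) (k + 1) l - ef (k + 2) (k + 1) l' : ℕ) : ℝ) := by
      have e2 : W (k + 2) j (k + 1) ≤
          512 * (ef (k + 2) (k + 1) l - ef (k + 2) (k + 1) l') := by omega
      have e3 : W1 ≤ 512 * ((ef (k + 2) (k + 1) l - ef (k + 2) (k + 1) l' : ℕ) : ℝ) := by
        rw [hW1]
        exact_mod_cast e2
      linarith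
    have e4 : W1 / 512 * lam ≤
        ((ef (k + 2) (k + 1) l - ef (k + 2) (k + 1) l' : ℕ) : ℝ) * lp :=
      mul_le_mul e1 hlp1 (by linarith) (Nat.cast_nonneg _)
    rw [hw1]
    have e5 : W1 * lam / 512 = W1 / 512 * lam := by ring
    rw [e5]
    linarith
  have hφeq : (P.F' P.h : ℝ) / P.F P.h = Real.exp (s' - s - d) := by
    rw [hNL.ratio, ← Real.exp_add, ← Real.exp_sub]
    congr 1
    ring
  have hFpos : (0 : ℝ) < P.F P.h := by
    rw [hNL.F, hNL.M]
    have : (0 : ℝ) < P.M' := by exact_mod_cast hNL.M'0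
    positivity
  have hF'pos : (0 : ℝ) < P.F' P.h := by
    rw [hNL.F']
    have : (0 : ℝ) < P.M' := by exact_mod_cast hNL.M'0
    positivity
  have hM'pos : (0 : ℝ) < P.M' := by exact_mod_cast hNL.M'0
  -- the price
  have hpc : P.pc P.h ≤ 2 * Real.exp (s' - s - d) := by
    obtain ⟨t1, ht1⟩ : ∃ t1, P.h = t1 + 1 := ⟨P.h - 1, by omega⟩
    have e1 : P.pc P.h = (P.F' P.h : ℝ) / P.F P.h + 1 / (P.q t1 2 : ℝ) := by
      rw [ht1]
      rfl
    have e2 := hNL.q2 t1 ht1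
    have e3 := hNL.deep
    have e4 : 1 / (P.q t1 2 : ℝ) ≤ Real.exp (s' - s - d) := by
      rw [one_div]
      refine (inv_anti₀ (Real.exp_pos _) e2).trans ?_
      rw [← Real.exp_neg]
      apply Real.exp_le_exp.2
      have e5 := hNL.su
      have e6 := hNL.sl'
      linarith
    rw [e1, hφeq]
    linarith
  have hpc0 : 0 < P.pc P.h := by
    obtain ⟨t1, ht1⟩ : ∃ t1, P.h = t1 + 1 := ⟨P.h - 1, by omega⟩
    have e1 : P.pc P.h = (P.F' P.h : ℝ) / P.F P.h + 1 / (P.q t1 2 : ℝ) := by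
      rw [ht1]
      rfl
    rw [e1]
    have e2 : (0 : ℝ) < (P.q t1 2 : ℝ) := (Real.exp_pos _).trans_le (hNL.q2 t1 ht1)
    positivity
  have hA0 : 0 < P.A P.h := by
    unfold Pr.A
    refine Finset.prod_pos (fun r _ => ?_)
    have e1 : (0 : ℝ) < P.p r 0 := by exact_mod_cast (hP.prime r 0).pos
    have e2 : (0 : ℝ) < P.p r 1 := by exact_mod_cast (hP.prime r 1).pos
    exact mul_pos (mul_pos (by norm_num) e1) e2
  -- the windows
  obtain ⟨v, hv⟩ : ∃ v, vlo (k + 2) k j = v := ⟨_, rfl⟩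
  have hvlo : (10 ^ 6) ^ W (k + 2) j (k + 1) ≤ v := by rw [← hv]; exact A_le_vlo le_rfl hLast.r8
  have hvw : Real.exp w1 ≤ (v : ℝ) := by
    have e1 : Real.exp w1 = (((10 ^ 6) ^ W (k + 2) j (k + 1) : ℕ) : ℝ) := by
      have e2 : lam = Real.log (10 ^ 6) := rfl
      rw [hw1, hW1, e2, ← Real.log_pow, Real.exp_log (by positivity)]
      push_cast
      ring
    rw [e1]
    exact_mod_cast hvlo
  have hv0 : (0 : ℝ) < v := (Real.exp_pos _).trans_le hvw
  have hv1 : 1 ≤ v := by exact_mod_cast (show (0 : ℝ) < v from hv0)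
  have hsv : Real.exp (w1 / 2) ≤ Real.sqrt v := by
    rw [show w1 / 2 = w1 * (1 / 2) by ring, Real.exp_mul, ← Real.sqrt_eq_rpow]
    exact Real.sqrt_le_sqrt hvw
  have hsv0 : 0 < Real.sqrt v := (Real.exp_pos _).trans_le hsv
  have hsvv : Real.sqrt v * Real.sqrt v = v := Real.mul_self_sqrt hv0.le
  have hel := h.el
  have hel' := h.el'
  have hLl : Lastw (k + 2) k (era l) := by rw [hel]; exact hLast
  have hLl' : Lastw (k + 2) k (era l') := by rw [hel']; exact hLast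
  have hhi : ∀ l0, era l0 = j → used (k + 2) l0 → ((vhi (k + 2) k l0 : ℕ) : ℝ) ≤
      Real.exp (28 * W1) := by
    intro l0 he hu
    have hL0 : Lastw (k + 2) k (era l0) := by rw [he]; exact hLast
    have e1 := vhi_le_sq le_rfl hL0 hu
    rw [he] at e1
    have e2 : ((((10 ^ 6) ^ W (k + 2) j (k + 1)) ^ 2 : ℕ) : ℝ) = Real.exp (2 * w1) := by
      have e3 : Real.exp w1 = (((10 ^ 6) ^ W (k + 2) j (k + 1) : ℕ) : ℝ) := by
        have e4 : lam = Real.log (10 ^ 6) := rfl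
        rw [hw1, hW1, e4, ← Real.log_pow, Real.exp_log (by positivity)]
        push_cast
        ring
      rw [show 2 * w1 = w1 + w1 by ring, Real.exp_add, e3]
      push_cast
      ring
    calc ((vhi (k + 2) k l0 : ℕ) : ℝ) ≤ ((((10 ^ 6) ^ W (k + 2) j (k + 1)) ^ 2 : ℕ) : ℝ) := by
          exact_mod_cast e1
      _ = Real.exp (2 * w1) := e2
      _ ≤ Real.exp (28 * W1) := Real.exp_le_exp.2 (by linarith)
  have hhi' : ((vhi (k + 2) k l' : ℕ) : ℝ) ≤ 1000037 * v := by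
    have e1 := Pool.Agent.Helper83.T5.vhi_le (m := k + 2) (k := k) (l' := l')
      (era_succ_used hLl'.hb (by omega) h.u')
    rw [hel', hv] at e1
    exact_mod_cast e1
  -- the modulus
  set q := pj j ^ (l - l') with hq
  have hq0 : 0 < q := pow_pos (pj_pos j) _
  have hqd : (q : ℝ) = Real.exp d := by rw [hq, hd, hexp]; push_cast; rfl
  have hMq : P.M = P.M' * q := by rw [hM.M, hM.M', h.Nl]
  -- numbers
  set x : ℝ := (rt (k + 2) j : ℝ) with hx
  set t0 : ℕ := 200 * rt (k + 2) j ^ 3 with ht0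
  set Ih : ℕ := IrD (k + 2) j (t + 1) l' (In j l' l) P.h with hIh
  set Z : ℝ := (2 * ((Ih : ℝ) * (t0 : ℝ)) + 1) * P.A P.h * P.pc P.h with hZ
  have hZ0 : 0 < Z := by positivity
  set tt : ℕ := ⌊Real.exp (-1) / Z⌋₊ with htt
  have hx1 : 1 ≤ x := by
    rw [hx]
    have := hLast.r8
    exact_mod_cast (by omega : 1 ≤ rt (k + 2) j)
  have key := bot_inst h hP hMq hq0 hX hK hK' hv hv1 tt t0
  -- real forms of the numbers
  have hIfle : ((nTx (k + 2) k j t l' l c : ℕ) : ℝ) ≤ Real.exp (d / 2) := by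
    have e1 : nTx (k + 2) k j t l' l c ≤ In j l' l := Pool.Agent.Helper39.SL.nT_le _ _ _ _ _ _
    have e2 : ((In j l' l : ℕ) : ℝ) = Real.exp ((((l - l') / 2 : ℕ) : ℝ) * lp) := by
      rw [hexp]
      unfold In
      push_cast
      rfl
    have e3 : ((nTx (k + 2) k j t l' l c : ℕ) : ℝ) ≤ ((In j l' l : ℕ) : ℝ) := by exact_mod_cast e1
    refine e3.trans ?_
    rw [e2]
    apply Real.exp_le_exp.2
    have e4 : (((l - l') / 2 : ℕ) : ℝ) ≤ ((l - l' : ℕ) : ℝ) / 2 := Nat.cast_div_le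
    calc (((l - l') / 2 : ℕ) : ℝ) * lp ≤ ((l - l' : ℕ) : ℝ) / 2 * lp :=
          mul_le_mul_of_nonneg_right e4 (by linarith)
      _ = _ := by rw [hd]; ring
  have hInle : ((In j l' l : ℕ) : ℝ) ≤ Real.exp (d / 2) := by
    have e2 : ((In j l' l : ℕ) : ℝ) = Real.exp ((((l - l') / 2 : ℕ) : ℝ) * lp) := by
      rw [hexp]
      unfold In
      push_cast
      rfl
    rw [e2]
    apply Real.exp_le_exp.2
    have e4 : (((l - l') / 2 : ℕ) : ℝ) ≤ ((l - l' : ℕ) : ℝ) / 2 := Nat.cast_div_le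
    calc (((l - l') / 2 : ℕ) : ℝ) * lp ≤ ((l - l' : ℕ) : ℝ) / 2 * lp :=
          mul_le_mul_of_nonneg_right e4 (by linarith)
      _ = _ := by rw [hd]; ring
  have hIh1 : (1 : ℝ) ≤ (Ih : ℝ) := by
    have : 1 ≤ Ih := by rw [hIh]; unfold IrD; exact Nat.le_add_left 1 _
    exact_mod_cast this
  have hIhle : (Ih : ℝ) ≤ Real.exp (d / 2 - s') + 1 := by
    have e1 : (Ih : ℝ) ≤ ((In j l' l : ℕ) : ℝ) / Real.exp s' + 1 := by
      rw [hIh]
      unfold IrD
      rw [hah]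
      push_cast
      have e2 : ((In j l' l / pj j ^ (ef (k + 2) (k + 1) l' - l') : ℕ) : ℝ) ≤
          ((In j l' l : ℕ) : ℝ) / ((pj j ^ (ef (k + 2) (k + 1) l' - l') : ℕ) : ℝ) :=
        Nat.cast_div_le
      have e3 : ((pj j ^ (ef (k + 2) (k + 1) l' - l') : ℕ) : ℝ) = Real.exp s' := by
        rw [hs', hexp]
        push_cast
        rfl
      rw [e3] at e2
      linarith
    refine e1.trans ?_
    rw [Real.exp_sub]
    have : ((In j l' l : ℕ) : ℝ) / Real.exp s' ≤ Real.exp (d / 2) / Real.exp s' :=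
      div_le_div_of_nonneg_right hInle (Real.exp_pos _).le
    linarith
  have hdiv1 : ((P.F P.h / P.F' P.h : ℕ) : ℝ) = (Real.exp (s' - s - d))⁻¹ := by
    rw [← hφeq, inv_div, Nat.cast_div (hP.F'F P.h le_rfl) hF'pos.ne']
  have hmu : (((nTx (k + 2) k j t l' l c) * (4 * (P.F P.h / P.F' P.h)) : ℕ) : ℝ) *
      (((vhi (k + 2) k l' / q + 1 : ℕ) : ℝ) * ((2 / Real.sqrt v) * (2 / Real.sqrt v))) ≤
      16 * 1000038 * (((nTx (k + 2) k j t l' l c : ℕ) : ℝ) * (Real.exp (s' - s - d))⁻¹) *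
        Real.exp (-d) := by
    have e1 : ((vhi (k + 2) k l' / q + 1 : ℕ) : ℝ) * ((2 / Real.sqrt v) * (2 / Real.sqrt v)) ≤
        4 * 1000038 * Real.exp (-d) := by
      have e2 : ((vhi (k + 2) k l' / q + 1 : ℕ) : ℝ) ≤ 1000037 * v / Real.exp d + 1 := by
        push_cast
        have e3 : ((vhi (k + 2) k l' / q : ℕ) : ℝ) ≤ ((vhi (k + 2) k l' : ℕ) : ℝ) / (q : ℝ) :=
          Nat.cast_div_le
        rw [hqd] at e3
        have e4 := div_le_div_of_nonneg_right hhi' (Real.exp_pos d).le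
        linarith
      have e5 : (2 / Real.sqrt v) * (2 / Real.sqrt v) = 4 / (v : ℝ) := by
        rw [div_mul_div_comm, hsvv]
        norm_num
      rw [e5]
      have e6 : (1 : ℝ) ≤ v * Real.exp (-d) := by
        have e7 : Real.exp d ≤ v := (Real.exp_le_exp.2 (by linarith)).trans hvw
        have e8 : Real.exp d * Real.exp (-d) = 1 := by rw [← Real.exp_add]; simp
        rw [← e8]
        exact mul_le_mul_of_nonneg_right e7 (Real.exp_pos _).le
      calc ((vhi (k + 2) k l' / q + 1 : ℕ) : ℝ) * (4 / (v : ℝ))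
          ≤ (1000037 * v / Real.exp d + 1) * (4 / (v : ℝ)) :=
            mul_le_mul_of_nonneg_right e2 (by positivity)
        _ ≤ (1000037 * v * Real.exp (-d) + v * Real.exp (-d)) * (4 / (v : ℝ)) := by
            refine mul_le_mul_of_nonneg_right ?_ (by positivity)
            rw [Real.exp_neg, div_eq_mul_inv]
            rw [Real.exp_neg] at e6
            linarith
        _ = 4 * 1000038 * Real.exp (-d) := by
            field_simp
            ring
    have e9 : (((nTx (k + 2) k j t l' l c) * (4 * (P.F P.h / P.F' P.h)) : ℕ) : ℝ) =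
        4 * (((nTx (k + 2) k j t l' l c : ℕ) : ℝ) * (Real.exp (s' - s - d))⁻¹) := by
      rw [Nat.cast_mul, Nat.cast_mul, hdiv1]
      push_cast
      ring
    rw [e9]
    calc 4 * (((nTx (k + 2) k j t l' l c : ℕ) : ℝ) * (Real.exp (s' - s - d))⁻¹) *
        (((vhi (k + 2) k l' / q + 1 : ℕ) : ℝ) * ((2 / Real.sqrt v) * (2 / Real.sqrt v)))
        ≤ 4 * (((nTx (k + 2) k j t l' l c : ℕ) : ℝ) * (Real.exp (s' - s - d))⁻¹) *
          (4 * 1000038 * Real.exp (-d)) := mul_le_mul_of_nonneg_left e1 (by positivity)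
      _ = _ := by ring
  have hx9 : x ^ 9 * (512 : ℝ) ^ c0 ≤ Real.exp (d / 2) := by
    have e1 : Real.exp (((l - l' : ℕ) : ℝ) * lam / 2) ≤ Real.exp (d / 2) := by
      apply Real.exp_le_exp.2
      rw [hd]
      have : ((l - l' : ℕ) : ℝ) * lam ≤ ((l - l' : ℕ) : ℝ) * lp :=
        mul_le_mul_of_nonneg_left hlp1 (Nat.cast_nonneg _)
      linarith
    rw [exp_half_lam] at e1
    refine le_trans ?_ e1
    have e2 : x = 2 ^ (la j / (k + 2)) := by
      rw [hx]
      unfold rt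
      push_cast
      rfl
    rw [e2, ← pow_mul]
    calc (2 : ℝ) ^ (la j / (k + 2) * 9) * 512 ^ c0 = 512 ^ (la j / (k + 2) + c0) := by
          rw [pow_add, mul_comm (la j / (k + 2)) 9, pow_mul]
          norm_num
      _ ≤ 512 ^ (l - l') := pow_le_pow_right₀ (by norm_num) hDlow
      _ ≤ 1000 ^ (l - l') := pow_le_pow_left₀ (by norm_num) (by norm_num) _
  have hxW : x ≤ W1 := by
    rw [hx, hW1]
    exact_mod_cast Pool.Agent.Helper27.T5.rt_le_W (m := k + 2) (j := j) (i := k + 1) (by omega)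
  have hlateW := hW0 (W (k + 2) j (k + 1)) (by
    have := Pool.Agent.Helper27.T5.rt_le_W (m := k + 2) (j := j) (i := k + 1) (by omega)
    omega)
  rw [← hW1] at hlateW
  have hl1 : 30 * 720000000 * 200 * K0 * x ^ 3 * Real.exp (-(0.0107 * w1)) ≤ 1 := by
    refine le_trans ?_ hlateW
    have e1 : x ^ 3 ≤ W1 ^ 7 := by
      calc x ^ 3 ≤ W1 ^ 3 := pow_le_pow_left₀ (by linarith) hxW 3
        _ ≤ W1 ^ 7 := pow_le_pow_right₀ (by linarith) (by norm_num)
    have e2 : Real.exp (-(0.0107 * w1)) ≤ Real.exp (-(W1 / 40)) := Real.exp_le_exp.2 (by linarith)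
    gcongr
  have hl2 : 20 * 6 * 200 * 101 * 2 * K0 * x ^ 6 * W1 * Real.exp (-(w1 / 512)) ≤ 1 := by
    refine le_trans ?_ hlateW
    have e1 : x ^ 6 * W1 ≤ W1 ^ 7 := by
      calc x ^ 6 * W1 ≤ W1 ^ 6 * W1 :=
            mul_le_mul_of_nonneg_right (pow_le_pow_left₀ (by linarith) hxW 6) (by linarith)
        _ = W1 ^ 7 := by ring
    have e2 : Real.exp (-(w1 / 512)) ≤ Real.exp (-(W1 / 40)) := Real.exp_le_exp.2 (by linarith)
    have e3 : 20 * 6 * 200 * 101 * 2 * K0 ≤ 30 * 720000000 * 200 * K0 := by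
      linarith only [hK1]
    have e4 : (0 : ℝ) ≤ x ^ 6 * W1 := by positivity
    calc 20 * 6 * 200 * 101 * 2 * K0 * x ^ 6 * W1 * Real.exp (-(w1 / 512))
        = (20 * 6 * 200 * 101 * 2 * K0) * (x ^ 6 * W1) * Real.exp (-(w1 / 512)) := by ring
      _ ≤ (30 * 720000000 * 200 * K0) * W1 ^ 7 * Real.exp (-(W1 / 40)) := by gcongr
  have hmain := pp_main (Ih := (Ih : ℝ)) (If := ((nTx (k + 2) k j t l' l c : ℕ) : ℝ)) (K0 := K0)
    (A := P.A P.h) (pc := P.pc P.h) (φ := Real.exp (s' - s - d)) (d := d) (s := s) (s' := s')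
    (w := w1) (c9 := (512 : ℝ) ^ c0) (x := x) (W := W1) (t0 := (t0 : ℝ))
    (mu := (((nTx (k + 2) k j t l' l c) * (4 * (P.F P.h / P.F' P.h)) : ℕ) : ℝ) *
      (((vhi (k + 2) k l' / q + 1 : ℕ) : ℝ) * ((2 / Real.sqrt v) * (2 / Real.sqrt v))))
    hx1 (by linarith) (by rw [ht0, hx]; push_cast; ring) hIh1 hIhle hK1 hA0.le hNL.A rfl hpc0.le hpc
    hφw hIfle (Nat.cast_nonneg _) hmu hx9 hNL.sl hNL.sl' hd0 hw0 hc0 hl1 hl2
  have hx3 : (0 : ℝ) ≤ 100 * x ^ 3 * W1 := by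
    have : (0 : ℝ) ≤ x := by linarith
    have : (0 : ℝ) ≤ W1 := by linarith
    positivity
  obtain ⟨f1, f2, f3⟩ := pp_floor hZ0 htt
    (mu := (((nTx (k + 2) k j t l' l c) * (4 * (P.F P.h / P.F' P.h)) : ℕ) : ℝ) *
      (((vhi (k + 2) k l' / q + 1 : ℕ) : ℝ) * ((2 / Real.sqrt v) * (2 / Real.sqrt v))))
    (mul_nonneg (Nat.cast_nonneg _) (mul_nonneg (Nat.cast_nonneg _)
      (mul_nonneg (div_nonneg (by norm_num) hsv0.le) (div_nonneg (by norm_num) hsv0.le)))) hx3 hmain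
  have h2v : 2 / Real.sqrt v ≤ 2 * Real.exp (-(w1 / 2)) := by
    rw [Real.exp_neg, div_eq_mul_inv]
    exact mul_le_mul_of_nonneg_left (inv_anti₀ (Real.exp_pos _) hsv) (by norm_num)
  have h2v0 : 0 ≤ 2 / Real.sqrt v := div_nonneg (by norm_num) hsv0.le
  have harc : (arcL P : ℝ) = 7 * Real.exp (d + s) := by
    unfold arcL
    rw [Nat.cast_mul, Nat.cast_div ((hP.M'F' P.h le_rfl).trans (hP.F'F P.h le_rfl)) hM'pos.ne',
      hNL.F, hNL.M, Real.exp_add]
    push_cast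
    field_simp
  have hsu := hNL.su
  have h16 : (16 : ℝ) ≤ Real.exp (0.7 * W1) := by
    have e1 := Real.add_one_le_exp (0.7 * W1)
    linarith
  have hmu1 : (arcL P : ℝ) * (2 / Real.sqrt v) ≤ Real.exp (-W1) := by
    rw [harc]
    calc 7 * Real.exp (d + s) * (2 / Real.sqrt v)
        ≤ 7 * Real.exp (d + s) * (2 * Real.exp (-(w1 / 2))) :=
          mul_le_mul_of_nonneg_left h2v (by positivity)
      _ = 14 * Real.exp (d + s + -(w1 / 2)) := by rw [Real.exp_add (d + s)]; ring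
      _ ≤ Real.exp (0.7 * W1) * Real.exp (-(1.7 * W1)) := by
          refine mul_le_mul (by linarith) (Real.exp_le_exp.2 (by linarith)) (Real.exp_pos _).le
            (Real.exp_pos _).le
      _ = Real.exp (-W1) := by rw [← Real.exp_add]; congr 1; ring
  have hmu2 : ((arcL P / q + 1 : ℕ) : ℝ) * (2 / Real.sqrt v) ≤ Real.exp (-W1) := by
    have e1 : ((arcL P / q + 1 : ℕ) : ℝ) ≤ 8 * Real.exp s := by
      push_cast
      have e2 : ((arcL P / q : ℕ) : ℝ) ≤ (arcL P : ℝ) / (q : ℝ) := Nat.cast_div_le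
      rw [harc, hqd, mul_div_assoc, ← Real.exp_sub, add_sub_cancel_left] at e2
      have e3 : (1 : ℝ) ≤ Real.exp s := Real.one_le_exp (by
        have := hNL.sl
        linarith)
      linarith
    calc ((arcL P / q + 1 : ℕ) : ℝ) * (2 / Real.sqrt v)
        ≤ 8 * Real.exp s * (2 * Real.exp (-(w1 / 2))) :=
          mul_le_mul e1 h2v h2v0 (by positivity)
      _ = 16 * Real.exp (s + -(w1 / 2)) := by rw [Real.exp_add s]; ring
      _ ≤ Real.exp (0.7 * W1) * Real.exp (-(1.7 * W1)) := by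
          refine mul_le_mul h16 (Real.exp_le_exp.2 (by linarith)) (Real.exp_pos _).le
            (Real.exp_pos _).le
      _ = Real.exp (-W1) := by rw [← Real.exp_add]; congr 1; ring
  refine Pool.Agent.Helper42.T5.Pr.PrLe_mono ?_ ?_ key
  · intro r _ hr
    by_contra hcon
    rw [not_lt] at hcon
    refine absurd hr (not_lt.2 ?_)
    have e1 : PPx (k + 2) k j t l' l (Pool.Agent.Helper42.T5.Pr.ext K r) c =
        ((PP P (nTx (k + 2) k j t l' l c) (XTx (k + 2) k j t l' l c)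
          (Vw (k + 2) k l (Pool.Agent.Helper42.T5.Pr.ext K r))
          (Vw (k + 2) k l' (Pool.Agent.Helper42.T5.Pr.ext K r)) : ℕ) : ℝ) *
          P.A P.h * P.pc P.h := by
      unfold PPx
      rw [hsb, Bw_last, Bw_last]
    rw [e1]
    have e2 : ((PP P (nTx (k + 2) k j t l' l c) (XTx (k + 2) k j t l' l c)
          (Vw (k + 2) k l (Pool.Agent.Helper42.T5.Pr.ext K r))
          (Vw (k + 2) k l' (Pool.Agent.Helper42.T5.Pr.ext K r)) : ℕ) : ℝ) ≤
        (2 * ((Ih : ℝ) * (t0 : ℝ)) + 1) * tt := by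
      exact_mod_cast hcon
    calc _ ≤ (2 * ((Ih : ℝ) * (t0 : ℝ)) + 1) * tt * P.A P.h * P.pc P.h := by
          refine mul_le_mul_of_nonneg_right (mul_le_mul_of_nonneg_right e2 hA0.le) hpc0.le
      _ = Z * tt := by rw [hZ]; ring
      _ ≤ Real.exp (-1) := f3
  · have t1 := tail_exp (mul_nonneg (Nat.cast_nonneg _) (mul_nonneg (Nat.cast_nonneg _)
      (mul_nonneg (div_nonneg (by norm_num) hsv0.le) (div_nonneg (by norm_num) hsv0.le)))) f1
    have t2 := pp_tail (x := x) (W := W1) (t0 := t0) hx1 (by linarith)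
      (by rw [ht0, hx]; push_cast; ring) (Nat.cast_nonneg _) (hhi l' hel' h.u')
      (mul_nonneg (Nat.cast_nonneg _) h2v0) hmu1
    have t3 := pp_tail (x := x) (W := W1) (t0 := t0) hx1 (by linarith)
      (by rw [ht0, hx]; push_cast; ring) (Nat.cast_nonneg _) (hhi l hel h.u)
      (mul_nonneg (Nat.cast_nonneg _) h2v0) hmu2
    have t4 : Real.exp (-(tt : ℝ)) ≤ Real.exp (-(100 * x ^ 3 * W1)) :=
      Real.exp_le_exp.2 (by linarith)
    linarith

open Pool.Agent.Helper22.SL in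
/-- **NE9**: `hL` for the random windows -/
theorem pp_bot (k : ℕ) : ∃ j0 c0 : ℕ, ∀ j t l' l, j0 ≤ j → PD (k + 2) k j (t + 1) l' l →
    ef (k + 2) (t + 1) l' = ef (k + 2) (t + 1) l → CaseBot c0 k j t l' l → ∀ K,
    keysOf (k + 2) k l ⊆ K → keysOf (k + 2) k l' ⊆ K →
    PrG (Mk (k + 2)) K (fun w => ∃ c ∈ Jx (k + 2) j t l' l,
      Real.exp (-1) < PPx (k + 2) k j t l' l w c)
      (Real.exp (-(W (k + 2) j (k + 1) : ℝ))) := by
  classical
  obtain ⟨j0, c0, h1⟩ := pp_one k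
  obtain ⟨j2, h2⟩ := exists_Lastw (k + 2) k le_rfl
  refine ⟨max j0 j2, c0, fun j t l' l hj h hc hcase K hK hK' => ?_⟩
  have hLast := h2 j (le_trans (le_max_right _ _) hj)
  have h3 := h1 j t l' l (le_trans (le_max_left _ _) hj) h hc hcase K hK hK'
  have h4 := Pool.Agent.Helper42.T5.Pr.PrLe_exists (K := K) (M := Mk (k + 2)) (Jx (k + 2) j t l' l)
    (B := fun c w => Real.exp (-1) < PPx (k + 2) k j t l' l w c)
    (ε := fun _ => 3 * Real.exp (-(100 * (rt (k + 2) j : ℝ) ^ 3 * W (k + 2) j (k + 1)))) h3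
  have h5 : PrLe (Mk (k + 2)) K (fun w => ∃ c ∈ Jx (k + 2) j t l' l,
      Real.exp (-1) < PPx (k + 2) k j t l' l w c)
      (Real.exp (-(W (k + 2) j (k + 1) : ℝ))) := by
    refine Pool.Agent.Helper42.T5.Pr.PrLe_mono (fun _ _ h => h) ?_ h4
    rw [Finset.sum_const, nsmul_eq_mul]
    have hJ := Pool.Agent.Helper75.T5.card_Jx h
    have hsb := hcase.1
    have hh3 := h.hh_le_three
    have hsb' : t + hh (k + 2) k j (t + 1) (l - l') = k := hsb
    have hWt : (W (k + 2) j (t + 1) : ℝ) ≤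
        (rt (k + 2) j : ℝ) ^ 3 * (W (k + 2) j (k + 1) : ℝ) := by
      have e1 : W (k + 2) j (t + 1) = rt (k + 2) j ^ (k - t) * W (k + 2) j (k + 1) := by
        have := Pool.Agent.Helper30.T5.W_add (m := k + 2) (j := j) (i := t + 1) (d := k - t)
          (by omega)
        have e2 : t + 1 + (k - t) = k + 1 := by omega
        rwa [e2] at this
      have e3 : rt (k + 2) j ^ (k - t) ≤ rt (k + 2) j ^ 3 :=
        Nat.pow_le_pow_right (by have := hLast.r8; omega) (by omega)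
      rw [e1]
      exact_mod_cast Nat.mul_le_mul_right _ e3
    have hr8 : (8 : ℝ) ≤ rt (k + 2) j := by exact_mod_cast hLast.r8
    have hW7 : (10 : ℝ) ^ 7 ≤ W (k + 2) j (k + 1) := by exact_mod_cast hLast.big
    set x : ℝ := (rt (k + 2) j : ℝ) with hx
    set W1 : ℝ := (W (k + 2) j (k + 1) : ℝ) with hW1
    have hx3 : (1 : ℝ) ≤ x ^ 3 := one_le_pow₀ (by linarith)
    have e4 : W1 ≤ x ^ 3 * W1 := le_mul_of_one_le_left (by linarith only [hW7]) hx3
    have e5 : (3 : ℝ) ≤ Real.exp 2 := by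
      have := Real.add_one_le_exp (2 : ℝ)
      linarith
    calc ((Jx (k + 2) j t l' l).card : ℝ) * (3 * Real.exp (-(100 * x ^ 3 * W1)))
        ≤ Real.exp (90 * W (k + 2) j (t + 1)) * (Real.exp 2 * Real.exp (-(100 * x ^ 3 * W1))) := by
          gcongr
      _ = Real.exp (90 * W (k + 2) j (t + 1) + (2 + -(100 * x ^ 3 * W1))) := by
          rw [Real.exp_add, Real.exp_add]
      _ ≤ Real.exp (-W1) := by
          apply Real.exp_le_exp.2
          linarith only [hWt, e4, hW7]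
  exact h5

end Pool.Agent.Helper66.T5
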