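import Mathlib

/-!
# T5b: the window `U' = {f m(y) + Q v}` in intervals and in classes
-/

set_option autoImplicit false

namespace Pool.Agent.Helper66.T5

open Finset

variable {β : Type*} [DecidableEq β]

/-- the window with one coded level and a lower window `V'` -/
def winU (Y : Finset β) (m : β → ℕ) (f Q : ℕ) (V' : Finset ℕ) : Finset ℕ :=
  (Y ×ˢ V').image (fun x => f * m x.1 + Q * x.2)

omit [DecidableEq β] in
theorem winU_card_le (Y : Finset β) (m : β → ℕ) (f Q : ℕ) (V' : Finset ℕ) :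
    (winU Y m f Q V').card ≤ Y.card * V'.card :=
  card_image_le.trans (card_product _ _).le

theorem div_add_le (a b c : ℕ) : (a + b) / c ≤ a / c + b / c + 1 := by
  rcases Nat.eq_zero_or_pos c with rfl | hc
  · simp
  · rw [← Nat.lt_succ_iff, Nat.div_lt_iff_lt_mul hc]
    have h1 := Nat.lt_mul_div_succ a hc
    have h2 := Nat.lt_mul_div_succ b hc
    have h3 : (a / c + b / c + 1).succ * c = c * (a / c + 1) + c * (b / c + 1) := by
      rw [Nat.succ_eq_add_one]; ring
    omega

omit [DecidableEq β] in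
/-- (U1): intervals -/
theorem winU_interval {Y : Finset β} {m : β → ℕ} {f Q ℓ RV RY : ℕ} {V' : Finset ℕ} (hf : 0 < f)
    (hQ : 0 < Q) (hm : ∀ y ∈ Y, m y < Q)
    (hV : ∀ a, (V'.filter (fun v => a ≤ v ∧ v < a + (f + ℓ / Q + 2))).card ≤ RV)
    (hY : ∀ a, (Y.filter (fun y => a ≤ m y ∧ m y < a + (ℓ / f + 2))).card ≤ RY) (a : ℕ) :
    ((winU Y m f Q V').filter (fun u => a ≤ u ∧ u < a + ℓ)).card ≤ RV * RY := by
  classical
  -- the pairs
  set T := (Y ×ˢ V').filter (fun x => a ≤ f * m x.1 + Q * x.2 ∧ f * m x.1 + Q * x.2 < a + ℓ)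
    with hT
  have h1 : (winU Y m f Q V').filter (fun u => a ≤ u ∧ u < a + ℓ) ⊆
      T.image (fun x => f * m x.1 + Q * x.2) := by
    intro u hu
    rw [mem_filter, winU, mem_image] at hu
    obtain ⟨⟨x, hx, rfl⟩, h2⟩ := hu
    exact mem_image_of_mem _ (mem_filter.2 ⟨hx, h2⟩)
  refine (card_le_card h1).trans (card_image_le.trans ?_)
  set b := a / Q - f with hb
  refine (card_le_mul_card_image_of_maps_to (f := fun x : β × ℕ => x.2)
    (t := V'.filter (fun v => b ≤ v ∧ v < b + (f + ℓ / Q + 2))) ?_ RY ?_).trans ?_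
  · intro x hx
    rw [hT, mem_filter, mem_product] at hx
    obtain ⟨⟨hx1, hx2⟩, h2, h3⟩ := hx
    have h4 : f * m x.1 < f * Q := Nat.mul_lt_mul_of_pos_left (hm _ hx1) hf
    rw [mem_filter]
    refine ⟨hx2, ?_, ?_⟩
    · have h5 : a < Q * (x.2 + f) := by
        have : Q * (x.2 + f) = Q * x.2 + f * Q := by ring
        omega
      have h6 : a / Q < x.2 + f := (Nat.div_lt_iff_lt_mul hQ).2 (by rw [Nat.mul_comm]; exact h5)
      omega
    · have h5 : x.2 ≤ (a + ℓ) / Q := (Nat.le_div_iff_mul_le hQ).2 (by rw [Nat.mul_comm]; omega)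
      have h6 := div_add_le a ℓ Q
      omega
  · intro v _
    set c := (a - Q * v) / f with hc
    refine (card_le_card_of_injOn (fun x : β × ℕ => x.1) (t := Y.filter (fun y => c ≤ m y ∧
      m y < c + (ℓ / f + 2))) ?_ ?_).trans (hY c)
    · intro x hx
      rw [mem_coe, mem_filter, hT, mem_filter, mem_product] at hx
      obtain ⟨⟨⟨hx1, hx2⟩, h2, h3⟩, h4⟩ := hx
      rw [mem_coe, mem_filter]
      refine ⟨hx1, ?_, ?_⟩
      · rw [hc]
        refine Nat.div_le_of_le_mul ?_
        rw [← h4]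
        dsimp only
        omega
      · dsimp only
        have h5 : m x.1 ≤ ((a - Q * v) + ℓ) / f := (Nat.le_div_iff_mul_le hf).2 (by
          rw [Nat.mul_comm, ← h4]; omega)
        have h6 := div_add_le (a - Q * v) ℓ f
        omega
    · intro x hx y hy hxy
      rw [mem_coe, mem_filter] at hx hy
      exact Prod.ext hxy (hx.2.trans hy.2.symm)
  · calc RY * _ ≤ RY * RV := Nat.mul_le_mul_left _ (hV b)
      _ = RV * RY := Nat.mul_comm _ _

omit [DecidableEq β] in
/-- a count over pairs by the second coordinate -/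
theorem card_pairs_le {Y : Finset β} {V' : Finset ℕ} (S : β → ℕ → Prop)
    [∀ y v, Decidable (S y v)] {P : ℕ → Prop} [DecidablePred P] {RV RY : ℕ}
    (hP : ∀ y ∈ Y, ∀ v ∈ V', S y v → P v) (hV : (V'.filter P).card ≤ RV)
    (hY : ∀ v ∈ V', (Y.filter (fun y => S y v)).card ≤ RY) :
    ((Y ×ˢ V').filter (fun x => S x.1 x.2)).card ≤ RV * RY := by
  refine (card_le_mul_card_image_of_maps_to (f := fun x : β × ℕ => x.2) (t := V'.filter P)
    ?_ RY ?_).trans ?_
  · intro x hx
    rw [mem_filter, mem_product] at hx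
    exact mem_filter.2 ⟨hx.1.2, hP _ hx.1.1 _ hx.1.2 hx.2⟩
  · intro v hv
    refine (card_le_card_of_injOn (fun x : β × ℕ => x.1) (t := Y.filter (fun y => S y v))
      ?_ ?_).trans (hY v (mem_filter.1 hv).1)
    · intro x hx
      rw [mem_coe, mem_filter, mem_filter, mem_product] at hx
      obtain ⟨⟨⟨hx1, hx2⟩, h2⟩, h4⟩ := hx
      rw [mem_coe, mem_filter]
      refine ⟨hx1, ?_⟩
      rw [← h4]
      exact h2
    · intro x hx y hy hxy
      rw [mem_coe, mem_filter] at hx hy
      exact Prod.ext hxy (hx.2.trans hy.2.symm)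
  · calc RY * _ ≤ RY * RV := Nat.mul_le_mul_left _ hV
      _ = RV * RY := Nat.mul_comm _ _

omit [DecidableEq β] in
/-- (U2), `g ∣ f`: the class of `v` is fixed -/
theorem winU_class_of_dvd {Y : Finset β} {m : β → ℕ} {f Q g RV : ℕ} {V' : Finset ℕ}
    (hgf : g ∣ f) (hQg : Nat.Coprime g Q)
    (hV : ∀ r, (V'.filter (fun v => v % g = r % g)).card ≤ RV) (r : ℕ) :
    ((winU Y m f Q V').filter (fun u => u % g = r % g)).card ≤ RV * Y.card := by
  classical
  have h1 : (winU Y m f Q V').filter (fun u => u % g = r % g) ⊆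
      ((Y ×ˢ V').filter (fun x => (f * m x.1 + Q * x.2) % g = r % g)).image
        (fun x => f * m x.1 + Q * x.2) := by
    intro u hu
    rw [mem_filter, winU, mem_image] at hu
    obtain ⟨⟨x, hx, rfl⟩, h2⟩ := hu
    exact mem_image_of_mem _ (mem_filter.2 ⟨hx, h2⟩)
  refine (card_le_card h1).trans (card_image_le.trans ?_)
  rcases ((Y ×ˢ V').filter (fun x => (f * m x.1 + Q * x.2) % g = r % g)).eq_empty_or_nonempty
    with h0 | ⟨x0, hx0⟩
  · rw [h0]
    simp
  · rw [mem_filter] at hx0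
    refine card_pairs_le (fun y v => (f * m y + Q * v) % g = r % g)
      (P := fun v => v % g = x0.2 % g) ?_ (hV x0.2) ?_
    · intro y _ v _ h
      have h2 : f * m y + Q * v ≡ f * m x0.1 + Q * x0.2 [MOD g] := h.trans hx0.2.symm
      have h3 : ∀ z, f * z ≡ 0 [MOD g] := fun z =>
        (Nat.modEq_zero_iff_dvd).2 (hgf.trans (dvd_mul_right _ _))
      have h4 : Q * v ≡ Q * x0.2 [MOD g] := by
        have h5 : f * m y + Q * v ≡ 0 + Q * v [MOD g] := (h3 _).add_right _
        have h6 : f * m x0.1 + Q * x0.2 ≡ 0 + Q * x0.2 [MOD g] := (h3 _).add_right _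
        rw [zero_add] at h5 h6
        exact h5.symm.trans (h2.trans h6)
      exact Nat.ModEq.cancel_left_of_coprime hQg h4
    · intro v _
      exact card_filter_le _ _

omit [DecidableEq β] in
/-- (U2), `f ∣ g`: the class of `v` modulo `f` and that of `m y` modulo `g / f` are fixed -/
theorem winU_class_of_mul {Y : Finset β} {m : β → ℕ} {f Q e RV RY : ℕ} {V' : Finset ℕ}
    (hf : 0 < f) (hQf : Nat.Coprime f Q)
    (hV : ∀ r, (V'.filter (fun v => v % f = r % f)).card ≤ RV)
    (hY : ∀ r, (Y.filter (fun y => m y % e = r % e)).card ≤ RY) (r : ℕ) :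
    ((winU Y m f Q V').filter (fun u => u % (f * e) = r % (f * e))).card ≤ RV * RY := by
  classical
  have h1 : (winU Y m f Q V').filter (fun u => u % (f * e) = r % (f * e)) ⊆
      ((Y ×ˢ V').filter (fun x => (f * m x.1 + Q * x.2) % (f * e) = r % (f * e))).image
        (fun x => f * m x.1 + Q * x.2) := by
    intro u hu
    rw [mem_filter, winU, mem_image] at hu
    obtain ⟨⟨x, hx, rfl⟩, h2⟩ := hu
    exact mem_image_of_mem _ (mem_filter.2 ⟨hx, h2⟩)
  refine (card_le_card h1).trans (card_image_le.trans ?_)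
  rcases ((Y ×ˢ V').filter
    (fun x => (f * m x.1 + Q * x.2) % (f * e) = r % (f * e))).eq_empty_or_nonempty
    with h0 | ⟨x0, hx0⟩
  · rw [h0]
    simp
  · rw [mem_filter] at hx0
    refine card_pairs_le (fun y v => (f * m y + Q * v) % (f * e) = r % (f * e))
      (P := fun v => v % f = x0.2 % f) ?_ (hV x0.2) ?_
    · intro y _ v _ h
      have h2' : f * m y + Q * v ≡ f * m x0.1 + Q * x0.2 [MOD (f * e)] := h.trans hx0.2.symm
      have h2 : f * m y + Q * v ≡ f * m x0.1 + Q * x0.2 [MOD f] :=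
        h2'.of_dvd (dvd_mul_right _ _)
      have h3 : ∀ z, f * z ≡ 0 [MOD f] := fun z =>
        (Nat.modEq_zero_iff_dvd).2 (dvd_mul_right _ _)
      have h4 : Q * v ≡ Q * x0.2 [MOD f] := by
        have h5 : f * m y + Q * v ≡ 0 + Q * v [MOD f] := (h3 _).add_right _
        have h6 : f * m x0.1 + Q * x0.2 ≡ 0 + Q * x0.2 [MOD f] := (h3 _).add_right _
        rw [zero_add] at h5 h6
        exact h5.symm.trans (h2.trans h6)
      exact Nat.ModEq.cancel_left_of_coprime hQf h4
    · intro v _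
      rcases (Y.filter (fun y => (f * m y + Q * v) % (f * e) = r % (f * e))).eq_empty_or_nonempty
        with h0 | ⟨y0, hy0⟩
      · rw [h0]
        simp
      · rw [mem_filter] at hy0
        refine (card_le_card ?_).trans (hY (m y0))
        intro y hy
        rw [mem_filter] at hy ⊢
        refine ⟨hy.1, ?_⟩
        have h2 : f * m y + Q * v ≡ f * m y0 + Q * v [MOD (f * e)] := hy.2.trans hy0.2.symm
        have h3 : f * m y ≡ f * m y0 [MOD (f * e)] := Nat.ModEq.add_right_cancel' _ h2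
        exact Nat.ModEq.mul_left_cancel' hf.ne' h3

end Pool.Agent.Helper66.T5
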