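import Pool.Agent.Helper66.T5.BotP
import Pool.Agent.Helper57.T5.Trans
import Pool.Agent.Helper18.T5.N1
import Pool.Agent.Helper22.HW.Stack

/-!
# T5b: the bottom lemma across a drop, for uniform keys

The window of the upper state is random (keys in `K \ K0`), the set `U'` of the lower state depends
on the keys of `K0`.
-/

set_option autoImplicit false

namespace Pool.Agent.Helper66.T5

open Finset Pool.Agent.Helper1.ET4 Pool.Agent.Helper42.T5.Pr Pool.Agent.Helper50.T5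
  Pool.Agent.Helper57.T4 Pool.Agent.Helper57.T5 Pool.Agent.Helper22.HW

variable {κ : Type*} [DecidableEq κ] {M : κ → ℕ} {K K0 : Finset κ} {lo hi : Bool → ℕ}
  {bk : Bool → ℕ → ℕ → κ}

/-- the mean -/
noncomputable def muE (nI R2 ℓ q d lo : ℕ) : ℝ :=
  ((nI * R2 * (ℓ / (q * (d / Nat.gcd d q)) + 1) : ℕ) : ℝ) * (2 / Real.sqrt lo)

/-- fixed sets `U'` -/
theorem botP_key {Λ C : Type*} [DecidableEq Λ] (hM : ∀ k, 0 < M k) (h : WinD M K lo hi bk)
    (hlo : 1 ≤ lo false) {q d : ℕ} (hq : 0 < q) (hd : 0 < d) (J : Finset C) (U' : C → Finset ℕ)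
    (I : C → Finset Λ) (cl : C → Λ → ℕ) (X : C → ℕ) (ℓ κc R1 R2 nI t : ℕ)
    (hκ : ∀ c ∈ J, ∀ r, ((I c).filter (fun i => cl c i % d = r % d)).card ≤ κc)
    (hI : ∀ c ∈ J, (I c).card ≤ nI)
    (hU1 : ∀ c ∈ J, ∀ a, ((U' c).filter (fun u => a ≤ u ∧ u < a + ℓ)).card ≤ R1)
    (hU2 : ∀ c ∈ J, ∀ r,
      ((U' c).filter (fun u => u % (Nat.gcd d q) = r % (Nat.gcd d q))).card ≤ R2) :
    PrLe M K (fun w => ∃ c ∈ J, κc * R1 * t <
        (hitsE (Wd lo hi bk w false) (U' c) (Earc (I c) (cl c) d (X c) ℓ) q).card)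
      ((J.card : ℝ) * (muE nI R2 ℓ q d (lo false) ^ t / (t.factorial : ℝ))) := by
  refine PrLe_of_pr hM ?_
  have h2 := botP_prob (un M K) (un_nonneg M K) (fun ω => VVs lo hi bk (ext K ω.1))
    (fun q => wl q.2) (fun q => (wl_pos _).le) (hind_VVs hM h) (s := false) (A := 2)
    (by norm_num) (fun v hv => wl_le v hv) (lo := lo false) (hi := hi false) hlo
    (fun ω => by rw [win_VVs]; exact Wd_sub _ _ _ _ _) hq hd J U' I cl X ℓ κc R1 R2 nI t
    hκ hI hU1 hU2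
  simp only [win_VVs] at h2
  exact h2

/-- the window of the upper state does not see the keys of `K0` -/
theorem Wd_glue (h : WinD M (K \ K0) lo hi bk) (w0 w : κ → ℕ) (s : Bool) :
    Wd lo hi bk (glue K0 w0 w) s = Wd lo hi bk w s := by
  unfold Wd VW
  refine filter_congr (fun v hv => ?_)
  have h1 := h.mem s v hv
  rw [mem_sdiff] at h1
  dsimp only
  rw [glue_not_mem K0 w0 w h1.2]

/-- **The bottom lemma across a drop.** -/
theorem botP_cond {Λ C : Type*} [DecidableEq Λ] (hM : ∀ k, 0 < M k) (hK : K0 ⊆ K)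
    (h : WinD M (K \ K0) lo hi bk) (hlo : 1 ≤ lo false) {q d : ℕ} (hq : 0 < q) (hd : 0 < d)
    (J : Finset C) (U' : (κ → ℕ) → Finset ℕ)
    (hdep : ∀ w w', (∀ k ∈ K0, w k = w' k) → U' w = U' w')
    (I : C → Finset Λ) (cl : C → Λ → ℕ) (X : C → ℕ) (ℓ κc R1 R2 nI t : ℕ)
    (hκ : ∀ c ∈ J, ∀ r, ((I c).filter (fun i => cl c i % d = r % d)).card ≤ κc)
    (hI : ∀ c ∈ J, (I c).card ≤ nI) {A : (κ → ℕ) → Prop} {δ : ℝ} (hA : PrLe M K0 A δ)
    (hU1 : ∀ w, (∀ k, w k < M k) → ¬ A w →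
      ∀ a, ((U' w).filter (fun u => a ≤ u ∧ u < a + ℓ)).card ≤ R1)
    (hU2 : ∀ w, (∀ k, w k < M k) → ¬ A w → ∀ r,
      ((U' w).filter (fun u => u % (Nat.gcd d q) = r % (Nat.gcd d q))).card ≤ R2) :
    PrLe M K (fun w => ∃ c ∈ J, κc * R1 * t <
        (hitsE (Wd lo hi bk w false) (U' w) (Earc (I c) (cl c) d (X c) ℓ) q).card)
      (δ + (J.card : ℝ) * (muE nI R2 ℓ q d (lo false) ^ t / (t.factorial : ℝ))) := by
  have hmu : 0 ≤ muE nI R2 ℓ q d (lo false) := by unfold muE; positivity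
  refine PrLe_cond_bad hK (by positivity) hA (fun r0 hr0 hA0 => ?_)
  have hlt : ∀ k, ext K0 r0 k < M k := fun k => ext_lt hM hr0 k
  have h3 := botP_key hM h hlo hq hd J (fun _ => U' (ext K0 r0)) I cl X ℓ κc R1 R2 nI t hκ hI
    (fun c _ => hU1 _ hlt hA0) (fun c _ => hU2 _ hlt hA0)
  refine PrLe_mono ?_ le_rfl h3
  rintro r _ ⟨c, hc, hbig⟩
  refine ⟨c, hc, ?_⟩
  rw [Wd_glue h, hdep (glue K0 (ext K0 r0) (ext (K \ K0) r)) (ext K0 r0)
    (fun k hk => glue_mem K0 _ _ hk)] at hbig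
  exact hbig

/-- triples of `Helper87.L3.trip` are hits -/
theorem trip_le_hitsE {γ : Type*} [DecidableEq γ] (I : Finset γ) (V U' : Finset ℕ) (cl : γ → ℕ)
    (q d X ℓ : ℕ) : (Pool.Agent.Helper87.L3.trip I V U' cl q d X ℓ).card ≤
      (hitsE V U' (Earc I cl d X ℓ) q).card := by
  refine card_le_card_of_injOn (fun x : γ × (ℕ × ℕ) => ((x.1, q * x.2.1 + x.2.2), x.2)) ?_ ?_
  · intro x hx
    rw [mem_coe, Pool.Agent.Helper87.L3.trip, mem_filter, mem_product, mem_product] at hx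
    rw [mem_coe, mem_hitsE, mem_Earc]
    obtain ⟨⟨h1, h2, h3⟩, ⟨h4, h5⟩, h6⟩ := hx
    exact ⟨⟨⟨⟨h1, h4, h5⟩, h6⟩, h2, h3⟩, rfl⟩
  · intro x _ y _ hxy
    simp only [Prod.mk.injEq] at hxy
    exact Prod.ext hxy.1.1 hxy.2

/-- hits for the class map of `cN` -/
theorem cN_le_hitsE {U U' V W' : Finset ℕ} {I m q D κ₂ N : ℕ} {cl : ℕ → ℕ} (hm : 0 < m)
    (hD : 0 < D) (hU : U = V.image (fun v => m * (q * v))) (hU' : U' = W'.image (fun v => m * v))
    (hq : 0 < q) :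
    cN U U' I m D cl κ₂ (m * N) ≤ (hitsE V W'
      (Earc (range I) (fun i => N + D * (N + 1) - cl i % D) D (N + 1 - (κ₂ + 1) * D) D) q).card := by
  subst hU hU'
  unfold cN
  refine card_le_card_of_injOn (fun x : ℕ × (ℕ × ℕ) =>
    ((x.1, q * (x.2.1 / (m * q)) + x.2.2 / m), (x.2.1 / (m * q), x.2.2 / m))) ?_ ?_
  · rintro ⟨i, u, u'⟩ hx
    simp only [mem_coe, mem_filter, mem_product, mem_range, mem_image] at hx
    obtain ⟨⟨hi, ⟨v, hv, rfl⟩, ⟨v', hv', rfl⟩⟩, he⟩ := hx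
    have hmq : 0 < m * q := Nat.mul_pos hm hq
    have e1 : m * (q * v) / (m * q) = v := by
      rw [← mul_assoc]
      exact Nat.mul_div_cancel_left _ hmq
    have e2 : m * v' / m = v' := Nat.mul_div_cancel_left _ hm
    rw [mem_coe, mem_hitsE, mem_Earc]
    simp only [e1, e2]
    have h1 : q * v + v' + (cl i % D + κ₂ * D) = N := by
      have : m * (q * v + v' + (cl i % D + κ₂ * D)) = m * N := by rw [← he]; ring
      exact Nat.eq_of_mul_eq_mul_left hm this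
    have h2 : cl i % D < D := Nat.mod_lt _ hD
    refine ⟨⟨⟨⟨mem_range.2 hi, ?_, ?_⟩, ?_⟩, hv, hv'⟩, trivial⟩
    · have : (κ₂ + 1) * D = κ₂ * D + D := by ring
      omega
    · have : (κ₂ + 1) * D = κ₂ * D + D := by ring
      omega
    · have h3 : N + D * (N + 1) - cl i % D = (q * v + v') + D * (κ₂ + (N + 1)) := by
        have h4 : D * (κ₂ + (N + 1)) = κ₂ * D + D * (N + 1) := by ring
        omega
      rw [h3, Nat.add_mul_mod_self_left]
  · rintro ⟨i, u, u'⟩ hx ⟨j, z, z'⟩ hy hxy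
    simp only [mem_coe, mem_filter, mem_product, mem_range, mem_image] at hx hy
    obtain ⟨⟨hi, ⟨v, hv, rfl⟩, ⟨v', hv', rfl⟩⟩, he⟩ := hx
    obtain ⟨⟨hj, ⟨x, hx, rfl⟩, ⟨x', hx', rfl⟩⟩, he'⟩ := hy
    have hmq : 0 < m * q := Nat.mul_pos hm hq
    simp only [Prod.mk.injEq] at hxy
    obtain ⟨⟨h1, _⟩, h2, h3⟩ := hxy
    rw [← mul_assoc, ← mul_assoc, Nat.mul_div_cancel_left _ hmq,
      Nat.mul_div_cancel_left _ hmq] at h2
    rw [Nat.mul_div_cancel_left _ hm, Nat.mul_div_cancel_left _ hm] at h3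
    rw [h1, h2, h3]

/-- the same class map and arc for all windows (proof of helper18) -/
theorem PP_le_trip_all {κ' : Type*} {P : Pool.Agent.Helper22.SL.Pr κ'} {Mk : κ' → ℕ} (hP : P.Ok Mk) {I : ℕ} {X : ℕ → ℕ} {Ir : ℕ → ℕ}
    (hX : Pool.Agent.Helper22.SL.Tg P I X Ir) :
    ∃ (cl : ℕ → ℕ) (a : ℕ),
      (∀ B B', Pool.Agent.Helper22.SL.PP P I X B B' ≤
        (Pool.Agent.Helper87.L3.trip (range I) B B' cl (P.M / P.M') (P.F' P.h / P.M') a
        (5 * (P.F P.h / P.M') + 1)).card) ∧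
      ∀ c, ((range I).filter (fun i => cl i ≡ c [MOD (P.F' P.h / P.M')])).card ≤ Ir P.h := by
  classical
  obtain ⟨N, hN⟩ := hP.M'M
  obtain ⟨f', hf'⟩ := hP.M'F' P.h le_rfl
  obtain ⟨g, hg⟩ := hP.F'F P.h le_rfl
  have hM' := hP.posM'
  have hL := Pool.Agent.Helper18.T5.L_pos hP P.h
  have hf'pos : 0 < f' := by
    have := Pool.Agent.Helper18.T5.F'_pos hP P.h le_rfl
    rw [hf'] at this
    exact Nat.pos_of_mul_pos_left this |> fun h => h
  set f := f' * g with hf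
  have hFf : P.F P.h = P.M' * f := by rw [hg, hf', hf, mul_assoc]
  have e1 : P.M / P.M' = N := by rw [hN, Nat.mul_div_cancel_left _ hM']
  have e2 : P.F' P.h / P.M' = f' := by rw [hf', Nat.mul_div_cancel_left _ hM']
  have e3 : P.F P.h / P.M' = f := by rw [hFf, Nat.mul_div_cancel_left _ hM']
  rw [e1, e2, e3]
  -- inverse of `L`
  have hcop : (P.L P.h).Coprime f' := by
    have h1 := hP.copL P.h le_rfl
    have h2 : f' ∣ P.F 0 := (Dvd.intro_left _ hf'.symm).trans (Pool.Agent.Helper18.T5.F'_dvd_zero hP P.h le_rfl)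
    exact Nat.Coprime.coprime_dvd_right h2 h1
  obtain ⟨u, hu⟩ : ∃ u, P.L P.h * u ≡ 1 [MOD f'] := by
    by_cases h1 : f' = 1
    · rw [h1]
      exact ⟨0, Nat.modEq_one⟩
    · obtain ⟨u, _, hu⟩ := Nat.exists_mul_mod_eq_one_of_coprime hcop (by omega)
      refine ⟨u, ?_⟩
      rw [Nat.ModEq, hu, Nat.mod_eq_of_lt (by omega)]
  refine ⟨fun i => u * (X i / P.M'), ?_⟩
  -- classes
  have hcls : ∀ c, ((range I).filter (fun i => u * (X i / P.M') ≡ c [MOD f'])).card ≤ Ir P.h := by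
    intro c
    refine le_trans (card_le_card ?_) (hX.cls P.h le_rfl (P.M' * (P.L P.h * c)))
    intro i hi
    rw [mem_filter, mem_range] at hi ⊢
    refine ⟨hi.1, ?_⟩
    have hd : P.M' ∣ X i := (Dvd.intro _ rfl).trans (hX.dvd i hi.1)
    obtain ⟨x, hx⟩ := hd
    have hxd : X i / P.M' = x := by rw [hx, Nat.mul_div_cancel_left _ hM']
    have h1 : u * x ≡ c [MOD f'] := by
      have := hi.2
      rwa [hxd] at this
    have h2 : P.L P.h * (u * x) ≡ P.L P.h * c [MOD f'] := h1.mul_left _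
    have h3 : P.L P.h * (u * x) ≡ x [MOD f'] := by
      have := hu.mul_right x
      rwa [one_mul, mul_assoc] at this
    have h4 : x ≡ P.L P.h * c [MOD f'] := h3.symm.trans h2
    rw [hf', hx]
    exact Nat.ModEq.mul_left' P.M' h4
  by_cases hI : I = 0
  · subst hI
    refine ⟨0, fun B B' => ?_, hcls⟩
    simp [Pool.Agent.Helper22.SL.PP]
  · -- the smallest target
    obtain ⟨j, hj, hmin⟩ := Finset.exists_min_image (range I) X ⟨0, mem_range.mpr (by omega)⟩
    rw [mem_range] at hj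
    set D := P.M' * P.L P.h with hD
    have hDpos : 0 < D := Nat.mul_pos hM' hL
    have hFL : P.F P.h * P.L P.h = D * f := by rw [hFf, hD]; ring
    have h0 : P.F 0 * P.L0 ≤ D * f := by
      have h1 := Pool.Agent.Helper18.T5.FL_mono hP P.h le_rfl
      have h2 : P.L 0 = P.L0 := by simp [Pool.Agent.Helper22.SL.Pr.L]
      rw [h2, hFL] at h1
      exact h1
    refine ⟨(X j - 4 * (D * f)) / D, fun B B' => ?_, hcls⟩
    rw [Pool.Agent.Helper22.SL.PP]
    apply card_le_card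
    intro q hq
    rw [mem_filter, mem_product, Pool.Agent.Helper22.SL.AP, mem_filter, mem_range, mem_range] at hq
    obtain ⟨⟨hqi, hqB⟩, h1, h2, h3, h4⟩ := hq
    rw [Pool.Agent.Helper87.L3.trip, mem_filter, mem_product, mem_range]
    refine ⟨⟨hqi, hqB⟩, ?_⟩
    set τ := N * q.2.1 + q.2.2 with hτ
    have hT : P.M * P.L P.h * q.2.1 + P.M' * P.L P.h * q.2.2 = D * τ := by
      rw [hN, hτ, hD]; ring
    rw [hT] at h1 h2 h3 h4
    rw [hFL] at h4
    have h5 : X j ≤ X q.1 := hmin _ (mem_range.mpr hqi)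
    have h6 : X q.1 < X j + P.F 0 * P.L0 := hX.win _ hqi _ hj
    refine ⟨⟨?_, ?_⟩, ?_⟩
    · -- lower end
      apply Nat.div_le_of_le_mul
      omega
    · -- upper end
      have h7 : X j - 4 * (D * f) < D * ((X j - 4 * (D * f)) / D + 1) := by
        rw [mul_add, mul_one]
        have := Nat.div_add_mod (X j - 4 * (D * f)) D
        have := Nat.mod_lt (X j - 4 * (D * f)) hDpos
        omega
      have h8 : D * τ < D * ((X j - 4 * (D * f)) / D + (5 * f + 1)) := by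
        have h9 : D * ((X j - 4 * (D * f)) / D + (5 * f + 1)) =
            D * ((X j - 4 * (D * f)) / D + 1) + 5 * (D * f) := by ring
        rw [h9]
        omega
      exact lt_of_mul_lt_mul_left h8 (Nat.zero_le D)
    · -- the class
      have hd : P.M' ∣ X q.1 := (Dvd.intro _ rfl).trans (hX.dvd q.1 hqi)
      obtain ⟨x, hx⟩ := hd
      have hxd : X q.1 / P.M' = x := by rw [hx, Nat.mul_div_cancel_left _ hM']
      have h7 : P.M' * (P.L P.h * τ) ≡ P.M' * x [MOD P.M' * f'] := by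
        have h8 : D * τ ≡ X q.1 [MOD P.F' P.h] := h3
        rw [hf', hx] at h8
        have h9 : D * τ = P.M' * (P.L P.h * τ) := by rw [hD, mul_assoc]
        rwa [h9] at h8
      have h8 : P.L P.h * τ ≡ x [MOD f'] := Nat.ModEq.mul_left_cancel' hM'.ne' h7
      have h9 : u * (P.L P.h * τ) ≡ u * x [MOD f'] := h8.mul_left _
      have h10 : u * (P.L P.h * τ) ≡ τ [MOD f'] := by
        have := hu.mul_right τ
        rw [one_mul] at this
        have e : P.L P.h * u * τ = u * (P.L P.h * τ) := by ring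
        rwa [e] at this
      show τ ≡ u * (X q.1 / P.M') [MOD f']
      rw [hxd]
      exact h10.symm.trans h9

/-- **The number `PP` of the last level across a drop, all contexts.** -/
theorem bot_drop_PP {κ' C : Type*} {P : Pool.Agent.Helper22.SL.Pr κ'} {Mk : κ' → ℕ} {I : ℕ}
    {Ir : ℕ → ℕ} (hM : ∀ k, 0 < M k) (hK : K0 ⊆ K)
    (h : WinD M (K \ K0) lo hi bk) (hlo : 1 ≤ lo false) (hPO : P.Ok Mk)
    (J : Finset C) (X : C → ℕ → ℕ) (hT : ∀ c ∈ J, Pool.Agent.Helper22.SL.Tg P I (X c) Ir)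
    (U' : (κ → ℕ) → Finset ℕ)
    (hdep : ∀ w w', (∀ k ∈ K0, w k = w' k) → U' w = U' w')
    {q d ℓ : ℕ} (hq : q = P.M / P.M') (hq0 : 0 < q) (hd : d = P.F' P.h / P.M') (hd0 : 0 < d)
    (hℓ : ℓ = 5 * (P.F P.h / P.M') + 1) (R1 R2 t : ℕ)
    {A : (κ → ℕ) → Prop} {δ : ℝ} (hA : PrLe M K0 A δ)
    (hU1 : ∀ w, (∀ k, w k < M k) → ¬ A w →
      ∀ a, ((U' w).filter (fun u => a ≤ u ∧ u < a + ℓ)).card ≤ R1)
    (hU2 : ∀ w, (∀ k, w k < M k) → ¬ A w → ∀ r,
      ((U' w).filter (fun u => u % (Nat.gcd d q) = r % (Nat.gcd d q))).card ≤ R2) :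
    PrLe M K (fun w => ∃ c ∈ J, Ir P.h * R1 * t <
        Pool.Agent.Helper22.SL.PP P I (X c) (Wd lo hi bk w false) (U' w))
      (δ + (J.card : ℝ) * (muE I R2 ℓ q d (lo false) ^ t / (t.factorial : ℝ))) := by
  classical
  -- the class map and the arc of the context `c` do not depend on the windows
  obtain ⟨cl, a, hcl⟩ : ∃ (cl : C → ℕ → ℕ) (a : C → ℕ), ∀ c ∈ J, (∀ B B',
      Pool.Agent.Helper22.SL.PP P I (X c) B B' ≤ (Pool.Agent.Helper87.L3.trip (range I) B B'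
        (cl c) q d (a c) ℓ).card) ∧
      ∀ r, ((range I).filter (fun i => cl c i ≡ r [MOD d])).card ≤ Ir P.h := by
    subst hq hd hℓ
    choose! cl a h1 using fun c (hc : c ∈ J) => PP_le_trip_all hPO (hT c hc)
    exact ⟨cl, a, h1⟩
  refine PrLe_mono ?_ le_rfl (botP_cond hM hK h hlo hq0 hd0 J U' hdep (fun _ => range I) cl a ℓ
    (Ir P.h) R1 R2 I t (fun c hc r => (hcl c hc).2 r) (fun c _ => by rw [card_range]) hA hU1 hU2)
  rintro r _ ⟨c, hc, hbig⟩
  exact ⟨c, hc, hbig.trans_le (((hcl c hc).1 _ _).trans (trip_le_hitsE _ _ _ _ _ _ _ _))⟩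

/-- **All fronts common, across a drop.** -/
theorem bot_drop_cN {C : Type*} (hM : ∀ k, 0 < M k) (hK : K0 ⊆ K)
    (h : WinD M (K \ K0) lo hi bk) (hlo : 1 ≤ lo false)
    (J : Finset C) (cl : C → ℕ → ℕ) (κ₂ N : C → ℕ) (W' : (κ → ℕ) → Finset ℕ)
    (hdep : ∀ w w', (∀ k ∈ K0, w k = w' k) → W' w = W' w')
    {m q D : ℕ} (hm : 0 < m) (hq : 0 < q) (hD : 0 < D) (I κc R1 R2 t : ℕ)
    (hκ : ∀ c ∈ J, ∀ r, ((range I).filter (fun i => cl c i % D = r % D)).card ≤ κc)
    {A : (κ → ℕ) → Prop} {δ : ℝ} (hA : PrLe M K0 A δ)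
    (hU1 : ∀ w, (∀ k, w k < M k) → ¬ A w →
      ∀ a, ((W' w).filter (fun u => a ≤ u ∧ u < a + D)).card ≤ R1)
    (hU2 : ∀ w, (∀ k, w k < M k) → ¬ A w → ∀ r,
      ((W' w).filter (fun u => u % (Nat.gcd D q) = r % (Nat.gcd D q))).card ≤ R2) :
    PrLe M K (fun w => ∃ c ∈ J, κc * R1 * t <
        cN ((Wd lo hi bk w false).image (fun v => m * (q * v)))
          ((W' w).image (fun v => m * v)) I m D (cl c) (κ₂ c) (m * N c))
      (δ + (J.card : ℝ) * (muE I R2 D q D (lo false) ^ t / (t.factorial : ℝ))) := by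
  classical
  refine PrLe_mono ?_ le_rfl (botP_cond hM hK h hlo hq hD J W' hdep (fun _ => range I)
    (fun c i => N c + D * (N c + 1) - cl c i % D) (fun c => N c + 1 - (κ₂ c + 1) * D) D
    κc R1 R2 I t ?_ (fun c _ => by rw [card_range]) hA hU1 hU2)
  · rintro r _ ⟨c, hc, hbig⟩
    exact ⟨c, hc, hbig.trans_le (cN_le_hitsE hm hD rfl rfl hq)⟩
  · intro c hc r
    -- the classes of the targets are the reflected classes of the labels
    rcases ((range I).filter (fun i => (N c + D * (N c + 1) - cl c i % D) % D = r % D)).eq_empty_or_nonempty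
      with h0 | ⟨i0, hi0⟩
    · rw [h0]
      simp
    · rw [mem_filter] at hi0
      refine (card_le_card ?_).trans (hκ c hc (cl c i0))
      intro i hi
      rw [mem_filter] at hi ⊢
      refine ⟨hi.1, ?_⟩
      have h1 : N c + D * (N c + 1) - cl c i % D ≡ N c + D * (N c + 1) - cl c i0 % D [MOD D] :=
        hi.2.trans hi0.2.symm
      have h2 : cl c i % D < D := Nat.mod_lt _ hD
      have h3 : cl c i0 % D < D := Nat.mod_lt _ hD
      have h4 : D ≤ D * (N c + 1) := Nat.le_mul_of_pos_right _ (Nat.succ_pos _)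
      set x := N c + D * (N c + 1) with hx
      have h5 := h1.add_right (cl c i % D + cl c i0 % D)
      have e1 : x - cl c i % D + (cl c i % D + cl c i0 % D) = x + cl c i0 % D := by omega
      have e2 : x - cl c i0 % D + (cl c i % D + cl c i0 % D) = x + cl c i % D := by omega
      rw [e1, e2] at h5
      have h6 := Nat.ModEq.add_left_cancel' _ h5
      rw [Nat.ModEq, Nat.mod_mod, Nat.mod_mod] at h6
      exact h6.symm

end Pool.Agent.Helper66.T5
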