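import Pool.Agent.Helper57.T5.Bot

/-!
# T5b: the innermost count for pairs across a drop

The labels `i ∈ I` have classes `cl i` modulo `d` (at most `κ` labels in a class), the targets are
the numbers `τ` of an arc of length `ℓ` with `τ ≡ cl i` modulo `d`.  `U'` is a fixed set with few
elements in intervals of length `ℓ` (`R1`) and few elements in the classes modulo `gcd q d` (`R2`).
-/

set_option autoImplicit false

namespace Pool.Agent.Helper66.T5

open Finset Pool.Agent.Helper1.ET4 Pool.Agent.Helper57.T5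

section det

variable {Λ : Type*} [DecidableEq Λ]

/-- the pairs (label, target) of an arc -/
def Earc (I : Finset Λ) (cl : Λ → ℕ) (d X ℓ : ℕ) : Finset (Λ × ℕ) :=
  (I ×ˢ Ico X (X + ℓ)).filter (fun e => e.2 % d = cl e.1 % d)

omit [DecidableEq Λ] in
theorem mem_Earc {I : Finset Λ} {cl : Λ → ℕ} {d X ℓ : ℕ} {e : Λ × ℕ} :
    e ∈ Earc I cl d X ℓ ↔ (e.1 ∈ I ∧ X ≤ e.2 ∧ e.2 < X + ℓ) ∧ e.2 % d = cl e.1 % d := by
  unfold Earc
  rw [mem_filter, mem_product, mem_Ico]

omit [DecidableEq Λ] in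
/-- stars are small -/
theorem star_Earc_le {I : Finset Λ} {cl : Λ → ℕ} {d X ℓ q κ R1 : ℕ} {U' : Finset ℕ}
    (hκ : ∀ r, (I.filter (fun i => cl i % d = r % d)).card ≤ κ)
    (hU1 : ∀ a, (U'.filter (fun u => a ≤ u ∧ u < a + ℓ)).card ≤ R1) (v : ℕ) :
    (Pool.Agent.Helper57.T5.star U' (Earc I cl d X ℓ) q v).card ≤ κ * R1 := by
  classical
  refine (card_le_mul_card_image_of_maps_to (f := fun x : (Λ × ℕ) × ℕ => x.2)
    (t := U'.filter (fun u => X - q * v ≤ u ∧ u < X - q * v + ℓ)) ?_ κ ?_).trans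
      (Nat.mul_le_mul_left κ (hU1 _))
  · intro x hx
    rw [Pool.Agent.Helper57.T5.star, mem_filter, mem_product, mem_Earc] at hx
    rw [mem_filter]
    refine ⟨hx.1.2, ?_, ?_⟩ <;> omega
  · intro u _
    refine le_trans (card_le_card_of_injOn (fun x : (Λ × ℕ) × ℕ => x.1.1) ?_ ?_) (hκ (q * v + u))
    · intro x hx
      rw [mem_coe, mem_filter, Pool.Agent.Helper57.T5.star, mem_filter, mem_product, mem_Earc] at hx
      rw [mem_coe, mem_filter]
      refine ⟨hx.1.1.1.1.1, ?_⟩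
      rw [← hx.1.1.1.2, ← hx.1.2, hx.2]
    · intro x hx y hy hxy
      rw [mem_coe, mem_filter, Pool.Agent.Helper57.T5.star, mem_filter] at hx hy
      have h1 : x.2 = y.2 := hx.2.trans hy.2.symm
      have h2 : x.1.2 = y.1.2 := by rw [← hx.1.2, ← hy.1.2, h1]
      exact Prod.ext (Prod.ext hxy h2) h1

/-- numbers of an interval in one class -/
theorem card_interval_class {S : Finset ℕ} {q m ℓ Y : ℕ} (hq : 0 < q) (hm : 0 < m)
    (h1 : ∀ v ∈ S, Y ≤ q * v ∧ q * v < Y + ℓ) (h2 : ∀ v ∈ S, ∀ w ∈ S, v ≡ w [MOD m]) :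
    S.card ≤ ℓ / (q * m) + 1 := by
  classical
  rcases S.eq_empty_or_nonempty with rfl | hne
  · simp
  · set v0 := S.min' hne with hv0
    have hmem : v0 ∈ S := S.min'_mem hne
    have hle : ∀ v ∈ S, v0 ≤ v := fun v hv => S.min'_le v hv
    have hdiv : ∀ v ∈ S, m ∣ v - v0 := fun v hv =>
      (Nat.modEq_iff_dvd' (hle v hv)).1 (h2 v0 hmem v hv)
    have : S.card ≤ (range (ℓ / (q * m) + 1)).card := by
      refine card_le_card_of_injOn (fun v => (v - v0) / m) ?_ ?_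
      · intro v hv
        rw [mem_coe, mem_range]
        obtain ⟨k, hk⟩ := hdiv v hv
        have h3 : (v - v0) / m = k := by rw [hk, Nat.mul_div_cancel_left _ hm]
        simp only
        rw [h3, Nat.lt_succ_iff, Nat.le_div_iff_mul_le (Nat.mul_pos hq hm)]
        have h4 := h1 v hv
        have h5 := h1 v0 hmem
        have h6 : q * v = q * v0 + q * (v - v0) := by
          rw [← Nat.mul_add, Nat.add_sub_cancel' (hle v hv)]
        have h7 : k * (q * m) = q * (v - v0) := by rw [hk]; ring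
        omega
      · intro v hv w hw hvw
        obtain ⟨k, hk⟩ := hdiv v hv
        obtain ⟨k', hk'⟩ := hdiv w hw
        simp only at hvw
        rw [hk, hk', Nat.mul_div_cancel_left _ hm, Nat.mul_div_cancel_left _ hm] at hvw
        have h3 := hle v hv
        have h4 := hle w hw
        rw [hvw] at hk
        omega
    rwa [card_range] at this

/-- few possible first window elements -/
theorem posV_Earc_le {I : Finset Λ} {cl : Λ → ℕ} {d X ℓ q R2 lo hi : ℕ} {U' : Finset ℕ}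
    (hq : 0 < q) (hd : 0 < d)
    (hU2 : ∀ c, (U'.filter (fun u => u % (Nat.gcd d q) = c % (Nat.gcd d q))).card ≤ R2) :
    (posV U' (Earc I cl d X ℓ) q lo hi).card ≤
      I.card * R2 * (ℓ / (q * (d / Nat.gcd d q)) + 1) := by
  classical
  set g := Nat.gcd d q with hg
  have hg0 : 0 < g := Nat.gcd_pos_of_pos_left _ hd
  have hm : 0 < d / g := Nat.div_pos (Nat.le_of_dvd hd (Nat.gcd_dvd_left _ _)) hg0
  -- the triples
  set T := ((I ×ˢ U') ×ˢ Ico lo hi).filter (fun x : (Λ × ℕ) × ℕ =>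
    X ≤ q * x.2 + x.1.2 ∧ q * x.2 + x.1.2 < X + ℓ ∧ (q * x.2 + x.1.2) % d = cl x.1.1 % d)
    with hT
  have h1 : posV U' (Earc I cl d X ℓ) q lo hi ⊆ T.image (fun x => x.2) := by
    intro v hv
    rw [posV, mem_filter] at hv
    obtain ⟨hv1, e, he, u, hu, h⟩ := hv
    rw [mem_Earc] at he
    rw [mem_image]
    refine ⟨((e.1, u), v), ?_, rfl⟩
    rw [hT, mem_filter, mem_product, mem_product]
    refine ⟨⟨⟨he.1.1, hu⟩, hv1⟩, ?_⟩
    simp only
    rw [h]
    exact ⟨he.1.2.1, he.1.2.2, he.2⟩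
  refine (card_le_card h1).trans (card_image_le.trans ?_)
  -- the pairs `(i, u)`
  set Q := (I ×ˢ U').filter (fun x : Λ × ℕ => x.2 % g = cl x.1 % g) with hQ
  have hQc : Q.card ≤ I.card * R2 := by
    refine (card_le_mul_card_image_of_maps_to (f := fun x : Λ × ℕ => x.1) (t := I) ?_ R2 ?_).trans
      (le_of_eq (Nat.mul_comm _ _))
    · intro x hx
      rw [hQ, mem_filter, mem_product] at hx
      exact hx.1.1
    · intro i _
      refine le_trans (card_le_card_of_injOn (fun x : Λ × ℕ => x.2) ?_ ?_) (hU2 (cl i))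
      · intro x hx
        rw [mem_coe, mem_filter, hQ, mem_filter, mem_product] at hx
        rw [mem_coe, mem_filter]
        refine ⟨hx.1.1.2, ?_⟩
        rw [← hx.2]
        exact hx.1.2
      · intro x hx y hy hxy
        rw [mem_coe, mem_filter] at hx hy
        exact Prod.ext (hx.2.trans hy.2.symm) hxy
  refine le_trans ?_ (Nat.mul_le_mul_right _ hQc)
  refine (card_le_mul_card_image_of_maps_to (f := fun x : (Λ × ℕ) × ℕ => x.1) (t := Q) ?_
    (ℓ / (q * (d / g)) + 1) ?_).trans (le_of_eq (Nat.mul_comm _ _))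
  · intro x hx
    rw [hT, mem_filter, mem_product] at hx
    rw [hQ, mem_filter]
    refine ⟨hx.1.1, ?_⟩
    have h2 : q * x.2 + x.1.2 ≡ cl x.1.1 [MOD d] := hx.2.2.2
    have h3 : q * x.2 + x.1.2 ≡ cl x.1.1 [MOD g] := h2.of_dvd (Nat.gcd_dvd_left _ _)
    have h4 : q * x.2 ≡ 0 [MOD g] :=
      (Nat.modEq_zero_iff_dvd).2 ((Nat.gcd_dvd_right d q).trans (dvd_mul_right _ _))
    have h5 : q * x.2 + x.1.2 ≡ 0 + x.1.2 [MOD g] := h4.add_right _
    rw [zero_add] at h5
    exact h5.symm.trans h3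
  · intro iu _
    refine le_trans (card_le_card_of_injOn (fun x : (Λ × ℕ) × ℕ => x.2)
      (t := (T.filter (fun x => x.1 = iu)).image (fun x => x.2)) ?_ ?_)
      (card_interval_class (Y := X - iu.2) hq hm ?_ ?_)
    · intro x hx
      exact mem_image_of_mem _ hx
    · intro x hx y hy hxy
      rw [mem_coe, mem_filter] at hx hy
      exact Prod.ext (hx.2.trans hy.2.symm) hxy
    · intro v hv
      obtain ⟨x, hx, rfl⟩ := mem_image.1 hv
      rw [mem_filter, hT, mem_filter] at hx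
      obtain ⟨⟨_, h2, h3, _⟩, h4⟩ := hx
      rw [h4] at h2 h3
      constructor
      · omega
      · omega
    · intro v hv w hw
      obtain ⟨x, hx, rfl⟩ := mem_image.1 hv
      obtain ⟨y, hy, rfl⟩ := mem_image.1 hw
      rw [mem_filter, hT, mem_filter] at hx hy
      have h2 : q * x.2 + x.1.2 ≡ cl x.1.1 [MOD d] := hx.1.2.2.2
      have h3 : q * y.2 + y.1.2 ≡ cl y.1.1 [MOD d] := hy.1.2.2.2
      rw [hx.2] at h2
      rw [hy.2] at h3
      have h4 : q * x.2 ≡ q * y.2 [MOD d] := Nat.ModEq.add_right_cancel' _ (h2.trans h3.symm)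
      exact Nat.ModEq.cancel_left_div_gcd hd h4

end det

variable {Ω ι Λ C : Type*} [Fintype Ω] [DecidableEq ι] [DecidableEq Λ]

/-- **The bottom lemma across a drop.**  Only the window of the state `s` is random. -/
theorem botP_prob (P : Ω → ℝ) (hP : ∀ ω, 0 ≤ P ω) (V : Ω → Finset (ι × ℕ)) (p : ι × ℕ → ℝ)
    (hp0 : ∀ q, 0 ≤ p q) (hind : ∀ T : Finset (ι × ℕ), pr P {ω | T ⊆ V ω} ≤ ∏ v ∈ T, p v)
    {s : ι} {A : ℝ} (hA : 0 ≤ A) (hp : ∀ v, 1 ≤ v → p (s, v) ≤ A / Real.sqrt v)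
    {lo hi : ℕ} (hlo : 1 ≤ lo) (hV : ∀ ω, win (V ω) s ⊆ Ico lo hi)
    {q d : ℕ} (hq : 0 < q) (hd : 0 < d) (J : Finset C) (U' : C → Finset ℕ)
    (I : C → Finset Λ) (cl : C → Λ → ℕ) (X : C → ℕ) (ℓ κ R1 R2 nI t : ℕ)
    (hκ : ∀ c ∈ J, ∀ r, ((I c).filter (fun i => cl c i % d = r % d)).card ≤ κ)
    (hI : ∀ c ∈ J, (I c).card ≤ nI)
    (hU1 : ∀ c ∈ J, ∀ a, ((U' c).filter (fun u => a ≤ u ∧ u < a + ℓ)).card ≤ R1)
    (hU2 : ∀ c ∈ J, ∀ r,
      ((U' c).filter (fun u => u % (Nat.gcd d q) = r % (Nat.gcd d q))).card ≤ R2) :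
    pr P {ω | ∃ c ∈ J, κ * R1 * t <
        (hitsE (win (V ω) s) (U' c) (Earc (I c) (cl c) d (X c) ℓ) q).card} ≤
      (J.card : ℝ) * ((((nI * R2 * (ℓ / (q * (d / Nat.gcd d q)) + 1) : ℕ) : ℝ) *
        (A / Real.sqrt lo)) ^ t / (t.factorial : ℝ)) := by
  refine bot_prob P hP V p hp0 hind hV J U' _ t (κ * R1) _ ?_ ?_
  · intro c hc v _
    exact star_Earc_le (hκ c hc) (hU1 c hc) v
  · intro c hc
    have hle : ∀ v ∈ posV (U' c) (Earc (I c) (cl c) d (X c) ℓ) q lo hi,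
        p (s, v) ≤ A / Real.sqrt lo := by
      intro v hv
      rw [posV, mem_filter, mem_Ico] at hv
      refine (hp v (hlo.trans hv.1.1)).trans ?_
      have h5 : (0 : ℝ) < Real.sqrt lo := Real.sqrt_pos.2 (by exact_mod_cast hlo)
      exact div_le_div_of_nonneg_left hA h5 (Real.sqrt_le_sqrt (by exact_mod_cast hv.1.1))
    refine (Finset.sum_le_card_nsmul _ _ _ hle).trans ?_
    rw [nsmul_eq_mul]
    refine mul_le_mul_of_nonneg_right ?_ (by positivity)
    have h1 := posV_Earc_le (I := I c) (cl := cl c) (X := X c) (ℓ := ℓ) (lo := lo) (hi := hi)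
      hq hd (hU2 c hc)
    have h2 : (I c).card * R2 * (ℓ / (q * (d / Nat.gcd d q)) + 1) ≤
        nI * R2 * (ℓ / (q * (d / Nat.gcd d q)) + 1) :=
      Nat.mul_le_mul_right _ (Nat.mul_le_mul_right _ (hI c hc))
    exact_mod_cast h1.trans h2

end Pool.Agent.Helper66.T5
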