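import Pool.Agent.Helper66.T5.BotKey
import Pool.Agent.Helper66.T5.BotU
import Pool.Agent.Helper45.T5.RegWin

/-!
# T5b: the bottom lemma across a drop, from regularity

`U' = {f m(y) + Q v' : y ∈ Y, v' ∈ V'}`, the numbers `m(y)` are regular (`RegOK`), the window `V'` is
regular for all classes (`RegSet _ 1`).
-/

set_option autoImplicit false

namespace Pool.Agent.Helper66.T5

open Finset Pool.Agent.Helper1.ET4 Pool.Agent.Helper42.T5.Pr Pool.Agent.Helper50.T5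
  Pool.Agent.Helper57.T4 Pool.Agent.Helper57.T5 Pool.Agent.Helper22.HW
  Pool.Agent.Helper41.T5 Pool.Agent.Helper45.T5

section det

variable {β : Type*} [DecidableEq β]

omit [DecidableEq β] in
/-- (U1) from regularity -/
theorem winU_R1 {Y : Finset β} {m : β → ℕ} {f Q ℓ rV rY : ℕ} {V' : Finset ℕ} {ρV ρY wV : ℝ}
    (hf : 0 < f) (hQ : 0 < Q) (hm : ∀ y ∈ Y, m y < Q) (hY : RegOK Y m Q ρY)
    (hV : RegSet V' 1 ρV wV) (hρY : 0 ≤ ρY) (hρV : 0 ≤ ρV) (hwV : 0 < wV)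
    (h1 : ((f + ℓ / Q + 2 : ℕ) : ℝ) ≤ wV) (h2 : ((ℓ / f + 2 : ℕ) : ℝ) ≤ Real.sqrt Q)
    (hrV : 2 * ρV ≤ rV) (hrY : 2 * ρY ≤ rY) (a : ℕ) :
    ((winU Y m f Q V').filter (fun u => a ≤ u ∧ u < a + ℓ)).card ≤ rV * rY := by
  have hsQ : 0 < Real.sqrt Q := Real.sqrt_pos.2 (by exact_mod_cast hQ)
  refine winU_interval hf hQ hm (fun b => ?_) (fun b => ?_) a
  · have h3 := hV.arc b (f + ℓ / Q + 2)
    have h4 : ρV * (1 + ((f + ℓ / Q + 2 : ℕ) : ℝ) / wV) ≤ 2 * ρV := by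
      have : ((f + ℓ / Q + 2 : ℕ) : ℝ) / wV ≤ 1 := (div_le_one hwV).2 h1
      nlinarith
    exact_mod_cast (h3.trans h4).trans hrV
  · have h3 := hY 1 one_pos (Nat.coprime_one_left _) b (ℓ / f + 2) 0
    have h4 : ρY * (1 + ((ℓ / f + 2 : ℕ) : ℝ) / (((1 : ℕ) : ℝ) * Real.sqrt Q)) ≤ 2 * ρY := by
      rw [Nat.cast_one, one_mul]
      have : ((ℓ / f + 2 : ℕ) : ℝ) / Real.sqrt Q ≤ 1 := (div_le_one hsQ).2 h2
      nlinarith
    have h5 : (((Y.filter fun y => b ≤ m y ∧ m y < b + (ℓ / f + 2)).card : ℕ) : ℝ) ≤ rY := by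
      refine le_trans (le_of_eq ?_) ((h3.trans h4).trans hrY)
      congr 2
      refine Finset.filter_congr fun y _ => ?_
      simp [Nat.mod_one]
    exact_mod_cast h5

omit [DecidableEq β] in
/-- (U2) from regularity -/
theorem winU_R2 {Y : Finset β} {m : β → ℕ} {f Q g lo' hi' : ℕ} {V' : Finset ℕ} {ρV ρY H : ℝ}
    (hf : 0 < f) (hQ : 0 < Q) (hY : RegOK Y m Q ρY)
    (hV : RegSet V' 1 ρV (Real.sqrt lo')) (hV' : ∀ v ∈ V', v < hi') (hm : ∀ y ∈ Y, m y < Q)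
    (hYc : (Y.card : ℝ) ≤ Real.sqrt Q) (hρY : 1 ≤ ρY) (hρV : 0 ≤ ρV) (hlo : 0 < lo')
    (hH : 0 ≤ H) (hhi : (hi' : ℝ) ≤ H * lo') (hfQ : Nat.Coprime f Q) (hg0 : 0 < g)
    (hgQ : Nat.Coprime g Q) (hg : g ∣ f ∨ f ∣ g) (h1 : (f : ℝ) ≤ Real.sqrt lo')
    (h2 : (g : ℝ) ≤ f * Real.sqrt Q) (r : ℕ) :
    (((winU Y m f Q V').filter (fun u => u % g = r % g)).card : ℝ) ≤
      2 * (1 + H) * ρV * ρY * (Real.sqrt lo' * Real.sqrt Q / g) := by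
  have hsQ : 0 < Real.sqrt Q := Real.sqrt_pos.2 (by exact_mod_cast hQ)
  have hsl : 0 < Real.sqrt lo' := Real.sqrt_pos.2 (by exact_mod_cast hlo)
  have hsl2 : Real.sqrt lo' * Real.sqrt lo' = lo' := Real.mul_self_sqrt (Nat.cast_nonneg _)
  have hsQ2 : Real.sqrt Q * Real.sqrt Q = Q := Real.mul_self_sqrt (Nat.cast_nonneg _)
  have hfR : (0 : ℝ) < f := by exact_mod_cast hf
  have hgR : (0 : ℝ) < g := by exact_mod_cast hg0
  -- classes of the window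
  have hVc : ∀ n : ℕ, 0 < n → (n : ℝ) ≤ Real.sqrt lo' → ∀ c,
      ((V'.filter (fun v => v % n = c % n)).card : ℝ) ≤ (1 + H) * ρV * (Real.sqrt lo' / n) := by
    intro n hn hn2 c
    have h3 := hV n hn (Nat.coprime_one_right _) 0 hi' c
    have hnR : (0 : ℝ) < n := by exact_mod_cast hn
    have h4 : ρV * (1 + (hi' : ℝ) / (n * Real.sqrt lo')) ≤ (1 + H) * ρV * (Real.sqrt lo' / n) := by
      have h5 : (1 : ℝ) ≤ Real.sqrt lo' / n := (one_le_div hnR).2 hn2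
      have h6 : (hi' : ℝ) / (n * Real.sqrt lo') ≤ H * (Real.sqrt lo' / n) := by
        rw [div_le_iff₀ (by positivity)]
        calc (hi' : ℝ) ≤ H * lo' := hhi
          _ = H * (Real.sqrt lo' * Real.sqrt lo') := by rw [hsl2]
          _ = H * (Real.sqrt lo' / n) * (n * Real.sqrt lo') := by field_simp
      nlinarith
    refine le_trans ?_ (h3.trans h4)
    refine Nat.cast_le.2 (card_le_card ?_)
    intro v hv
    rw [mem_filter] at hv ⊢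
    exact ⟨hv.1, Nat.zero_le _, by rw [zero_add]; exact hV' v hv.1, hv.2⟩
  rcases hg with hg | hg
  · -- `g ∣ f`
    have hgf : (g : ℝ) ≤ f := by exact_mod_cast Nat.le_of_dvd hf hg
    obtain ⟨RV, hRV1, hRV2⟩ : ∃ RV : ℕ, (∀ c, (V'.filter (fun v => v % g = c % g)).card ≤ RV) ∧
        (RV : ℝ) ≤ (1 + H) * ρV * (Real.sqrt lo' / g) := by
      refine ⟨⌊(1 + H) * ρV * (Real.sqrt lo' / g)⌋₊, fun c => Nat.le_floor (hVc g hg0
        (hgf.trans h1) c), Nat.floor_le (by positivity)⟩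
    have h3 := winU_class_of_dvd (Y := Y) (m := m) (f := f) (Q := Q) (V' := V') hg hgQ hRV1 r
    have h4 : ((RV * Y.card : ℕ) : ℝ) ≤ (1 + H) * ρV * (Real.sqrt lo' / g) * Real.sqrt Q := by
      push_cast
      exact mul_le_mul hRV2 hYc (Nat.cast_nonneg _) (by positivity)
    refine (Nat.cast_le.2 h3).trans (h4.trans ?_)
    have h5 : (0 : ℝ) ≤ (1 + H) * ρV * (Real.sqrt lo' * Real.sqrt Q / g) := by positivity
    have h6 : (1 + H) * ρV * (Real.sqrt lo' / g) * Real.sqrt Q =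
        (1 + H) * ρV * (Real.sqrt lo' * Real.sqrt Q / g) := by ring
    rw [h6]
    nlinarith
  · -- `f ∣ g`
    obtain ⟨e, rfl⟩ := hg
    have he0 : 0 < e := Nat.pos_of_mul_pos_left hg0 |> fun _ =>
      Nat.pos_of_ne_zero (by rintro rfl; simp at hg0)
    have heR : (0 : ℝ) < e := by exact_mod_cast he0
    have hsQe : (e : ℝ) ≤ Real.sqrt Q := by
      push_cast at h2
      exact le_of_mul_le_mul_left h2 hfR
    obtain ⟨RV, hRV1, hRV2⟩ : ∃ RV : ℕ, (∀ c, (V'.filter (fun v => v % f = c % f)).card ≤ RV) ∧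
        (RV : ℝ) ≤ (1 + H) * ρV * (Real.sqrt lo' / f) := by
      refine ⟨⌊(1 + H) * ρV * (Real.sqrt lo' / f)⌋₊, fun c => Nat.le_floor (hVc f hf h1 c),
        Nat.floor_le (by positivity)⟩
    obtain ⟨RY, hRY1, hRY2⟩ : ∃ RY : ℕ, (∀ c, (Y.filter (fun y => m y % e = c % e)).card ≤ RY) ∧
        (RY : ℝ) ≤ 2 * ρY * (Real.sqrt Q / e) := by
      refine ⟨⌊2 * ρY * (Real.sqrt Q / e)⌋₊, fun c => Nat.le_floor ?_,
        Nat.floor_le (by positivity)⟩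
      have h3 := hY e he0 (Nat.Coprime.coprime_dvd_left (Dvd.intro_left _ rfl) hgQ) 0 Q c
      have h4 : ρY * (1 + (Q : ℝ) / (e * Real.sqrt Q)) ≤ 2 * ρY * (Real.sqrt Q / e) := by
        have h5 : (1 : ℝ) ≤ Real.sqrt Q / e := (one_le_div heR).2 hsQe
        have h6 : (Q : ℝ) / (e * Real.sqrt Q) = Real.sqrt Q / e := by
          rw [div_eq_div_iff (by positivity) (by positivity), ← mul_assoc,
            mul_comm (Real.sqrt Q), mul_assoc, hsQ2]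
          ring
        rw [h6]
        nlinarith
      refine le_trans ?_ (h3.trans h4)
      refine Nat.cast_le.2 (card_le_card ?_)
      intro y hy
      rw [mem_filter] at hy ⊢
      exact ⟨hy.1, Nat.zero_le _, by rw [zero_add]; exact hm y hy.1, hy.2⟩
    have h3 := winU_class_of_mul (Y := Y) (m := m) (f := f) (Q := Q) (e := e) (V' := V') hf hfQ
      hRV1 hRY1 r
    have h4 : ((RV * RY : ℕ) : ℝ) ≤
        (1 + H) * ρV * (Real.sqrt lo' / f) * (2 * ρY * (Real.sqrt Q / e)) := by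
      push_cast
      exact mul_le_mul hRV2 hRY2 (Nat.cast_nonneg _) (by positivity)
    refine (Nat.cast_le.2 h3).trans (h4.trans (le_of_eq ?_))
    push_cast
    field_simp

end det

/-- the mean -/
theorem muE_le {nI R2 ℓ q d lo lo' Q g : ℕ} {B c1 : ℝ} (hg : g = Nat.gcd d q) (hq : 0 < q)
    (hd : 0 < d) (hlo : 0 < lo) (hB : 0 ≤ B)
    (hR2 : (R2 : ℝ) ≤ B * (Real.sqrt lo' * Real.sqrt Q / g))
    (hc : Real.sqrt lo' * Real.sqrt Q ≤ c1 * Real.sqrt lo) :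
    muE nI R2 ℓ q d lo ≤ 2 * B * c1 * (nI * ((ℓ : ℝ) / (q * d) + 1 / g)) := by
  subst hg
  set g := Nat.gcd d q with hg
  have hg0 : 0 < g := Nat.gcd_pos_of_pos_left _ hd
  have hgR : (0 : ℝ) < g := by exact_mod_cast hg0
  have hqR : (0 : ℝ) < q := by exact_mod_cast hq
  have hdR : (0 : ℝ) < d := by exact_mod_cast hd
  have hslo : 0 < Real.sqrt lo := Real.sqrt_pos.2 (by exact_mod_cast hlo)
  unfold muE
  push_cast
  rw [← hg]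
  have hdg : ((d / g : ℕ) : ℝ) = (d : ℝ) / g :=
    Nat.cast_div (Nat.gcd_dvd_left _ _) hgR.ne'
  have h1 : ((ℓ / (q * (d / g)) : ℕ) : ℝ) ≤ (ℓ : ℝ) * g / (q * d) := by
    refine Nat.cast_div_le.trans (le_of_eq ?_)
    push_cast
    rw [hdg]
    field_simp
  have h2 : (0 : ℝ) ≤ nI := Nat.cast_nonneg _
  have h3 : (nI : ℝ) * R2 * (((ℓ / (q * (d / g)) : ℕ) : ℝ) + 1) * (2 / Real.sqrt lo) ≤
      nI * (B * (Real.sqrt lo' * Real.sqrt Q / g)) * ((ℓ : ℝ) * g / (q * d) + 1) *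
        (2 / Real.sqrt lo) := by
    gcongr
  refine h3.trans ?_
  have h4 : (nI : ℝ) * (B * (Real.sqrt lo' * Real.sqrt Q / g)) * ((ℓ : ℝ) * g / (q * d) + 1) *
        (2 / Real.sqrt lo) = (2 * B * (nI * ((ℓ : ℝ) / (q * d) + 1 / g))) *
        ((Real.sqrt lo' * Real.sqrt Q) / Real.sqrt lo) := by
    field_simp
  rw [h4]
  have h5 : (Real.sqrt lo' * Real.sqrt Q) / Real.sqrt lo ≤ c1 := by
    rw [div_le_iff₀ hslo]
    exact hc
  have h6 : (0 : ℝ) ≤ 2 * B * (nI * ((ℓ : ℝ) / (q * d) + 1 / g)) := by positivity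
  calc 2 * B * (nI * ((ℓ : ℝ) / (q * d) + 1 / g)) * ((Real.sqrt lo' * Real.sqrt Q) / Real.sqrt lo)
      ≤ 2 * B * (nI * ((ℓ : ℝ) / (q * d) + 1 / g)) * c1 := mul_le_mul_of_nonneg_left h5 h6
    _ = _ := by ring

section

variable {κ : Type*} [DecidableEq κ] {M : κ → ℕ} {K K0 : Finset κ} {lo hi : Bool → ℕ}
  {bk : Bool → ℕ → ℕ → κ} {β : Type*} [DecidableEq β]

/-- the data of the lower windows `U' w = {f m(y) + Q v' : y ∈ Y, v' ∈ V' w}` -/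
structure DropU (M : κ → ℕ) (K0 : Finset κ) (Y : Finset β) (m : (κ → ℕ) → β → ℕ) (f Q : ℕ)
    (V' : (κ → ℕ) → Finset ℕ) (lo' hi' : ℕ) (H ρV ρY : ℝ) (A : (κ → ℕ) → Prop) : Prop where
  hf : 0 < f
  hQ : 0 < Q
  fQ : Nat.Coprime f Q
  mlt : ∀ w, (∀ k, w k < M k) → ∀ y ∈ Y, m w y < Q
  vlt : ∀ w, ∀ v ∈ V' w, v < hi'
  dep : ∀ w w', (∀ k ∈ K0, w k = w' k) → (∀ y ∈ Y, m w y = m w' y) ∧ V' w = V' w'
  Yc : (Y.card : ℝ) ≤ Real.sqrt Q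
  lo : 0 < lo'
  hH : 0 ≤ H
  hi : (hi' : ℝ) ≤ H * lo'
  rY1 : 1 ≤ ρY
  rV0 : 0 ≤ ρV
  flo : (f : ℝ) ≤ Real.sqrt lo'
  reg : ∀ w, (∀ k, w k < M k) → ¬ A w → RegOK Y (m w) Q ρY ∧ RegSet (V' w) 1 ρV (Real.sqrt lo')

omit [DecidableEq κ] [DecidableEq β] in
theorem DropU.dep_win {Y : Finset β} {m : (κ → ℕ) → β → ℕ} {f Q : ℕ}
    {V' : (κ → ℕ) → Finset ℕ} {lo' hi' : ℕ} {H ρV ρY : ℝ} {A : (κ → ℕ) → Prop}
    (h : DropU M K0 Y m f Q V' lo' hi' H ρV ρY A) (w w' : κ → ℕ)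
    (hw : ∀ k ∈ K0, w k = w' k) : winU Y (m w) f Q (V' w) = winU Y (m w') f Q (V' w') := by
  obtain ⟨h1, h2⟩ := h.dep w w' hw
  unfold winU
  rw [h2]
  refine image_congr ?_
  intro x hx
  rw [mem_coe, mem_product] at hx
  simp only [h1 _ hx.1]

omit [DecidableEq κ] [DecidableEq β] in
/-- the bounds (U1), (U2) -/
theorem DropU.bounds {Y : Finset β} {m : (κ → ℕ) → β → ℕ} {f Q : ℕ}
    {V' : (κ → ℕ) → Finset ℕ} {lo' hi' : ℕ} {H ρV ρY : ℝ} {A : (κ → ℕ) → Prop}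
    (h : DropU M K0 Y m f Q V' lo' hi' H ρV ρY A) {ℓ g rV rY : ℕ}
    (h1 : ((f + ℓ / Q + 2 : ℕ) : ℝ) ≤ Real.sqrt lo')
    (h2 : ((ℓ / f + 2 : ℕ) : ℝ) ≤ Real.sqrt Q) (hrV : 2 * ρV ≤ rV) (hrY : 2 * ρY ≤ rY)
    (hg0 : 0 < g) (hgQ : Nat.Coprime g Q) (hg : g ∣ f ∨ f ∣ g)
    (h3 : (g : ℝ) ≤ f * Real.sqrt Q) :
    (∀ w, (∀ k, w k < M k) → ¬ A w → ∀ a,
      ((winU Y (m w) f Q (V' w)).filter (fun u => a ≤ u ∧ u < a + ℓ)).card ≤ rV * rY) ∧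
    (∀ w, (∀ k, w k < M k) → ¬ A w → ∀ r,
      ((winU Y (m w) f Q (V' w)).filter (fun u => u % g = r % g)).card ≤
        ⌊2 * (1 + H) * ρV * ρY * (Real.sqrt lo' * Real.sqrt Q / g)⌋₊) := by
  have hl : 0 < Real.sqrt lo' := Real.sqrt_pos.2 (by exact_mod_cast h.lo)
  refine ⟨fun w hw hA => ?_, fun w hw hA r => Nat.le_floor ?_⟩
  · obtain ⟨r1, r2⟩ := h.reg w hw hA
    exact winU_R1 h.hf h.hQ (h.mlt w hw) r1 r2 (zero_le_one.trans h.rY1) h.rV0 hl h1 h2 hrV hrY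
  · obtain ⟨r1, r2⟩ := h.reg w hw hA
    exact winU_R2 h.hf h.hQ r1 r2 (h.vlt w) (h.mlt w hw) h.Yc h.rY1 h.rV0 h.lo h.hH h.hi h.fQ hg0
      hgQ hg h.flo h3 r

/-- the mean of the number of hits -/
noncomputable def muD (H ρV ρY c1 : ℝ) (nI ℓ q d g : ℕ) : ℝ :=
  2 * (2 * (1 + H) * ρV * ρY) * c1 * (nI * ((ℓ : ℝ) / (q * d) + 1 / g))

/-- **BOT', arcs**: the number `PP` of the last level across a drop. -/
theorem drop_PP {κ' C : Type*} {P : Pool.Agent.Helper22.SL.Pr κ'} {Mk : κ' → ℕ} {I : ℕ}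
    {Ir : ℕ → ℕ} (hM : ∀ k, 0 < M k) (hK : K0 ⊆ K)
    (h : WinD M (K \ K0) lo hi bk) (hlo : 1 ≤ lo false) (hPO : P.Ok Mk)
    (J : Finset C) (X : C → ℕ → ℕ) (hT : ∀ c ∈ J, Pool.Agent.Helper22.SL.Tg P I (X c) Ir)
    {Y : Finset β} {m : (κ → ℕ) → β → ℕ} {f Q : ℕ} {V' : (κ → ℕ) → Finset ℕ} {lo' hi' : ℕ}
    {H ρV ρY : ℝ} {A : (κ → ℕ) → Prop} {δ : ℝ} (hU : DropU M K0 Y m f Q V' lo' hi' H ρV ρY A)
    (hA : PrLe M K0 A δ)
    {q d ℓ g rV rY t : ℕ} {c1 μ : ℝ} (hq : q = P.M / P.M') (hq0 : 0 < q)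
    (hd : d = P.F' P.h / P.M') (hd0 : 0 < d) (hℓ : ℓ = 5 * (P.F P.h / P.M') + 1)
    (hg : g = Nat.gcd d q)
    (h1 : ((f + ℓ / Q + 2 : ℕ) : ℝ) ≤ Real.sqrt lo')
    (h2 : ((ℓ / f + 2 : ℕ) : ℝ) ≤ Real.sqrt Q) (hrV : 2 * ρV ≤ rV) (hrY : 2 * ρY ≤ rY)
    (hgQ : Nat.Coprime g Q) (hgf : g ∣ f ∨ f ∣ g) (h3 : (g : ℝ) ≤ f * Real.sqrt Q)
    (hc : Real.sqrt lo' * Real.sqrt Q ≤ c1 * Real.sqrt (lo false))
    (hμ : muD H ρV ρY c1 I ℓ q d g ≤ μ) :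
    PrLe M K (fun w => ∃ c ∈ J, Ir P.h * (rV * rY) * t <
        Pool.Agent.Helper22.SL.PP P I (X c) (Wd lo hi bk w false) (winU Y (m w) f Q (V' w)))
      (δ + (J.card : ℝ) * (μ ^ t / (t.factorial : ℝ))) := by
  have hg0 : 0 < g := by rw [hg]; exact Nat.gcd_pos_of_pos_left _ hd0
  obtain ⟨b1, b2⟩ := hU.bounds h1 h2 hrV hrY hg0 hgQ hgf h3
  have hB : 0 ≤ 2 * (1 + H) * ρV * ρY := by
    have := hU.hH; have := hU.rV0; have := hU.rY1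
    positivity
  have hgR : (0 : ℝ) < g := by exact_mod_cast hg0
  rw [hg] at b2
  refine PrLe_mono (fun _ _ h => h) ?_ (bot_drop_PP hM hK h hlo hPO J X hT
    (fun w => winU Y (m w) f Q (V' w)) hU.dep_win hq hq0 hd hd0 hℓ (rV * rY) _ t hA b1 b2)
  have h4 := muE_le (nI := I) (ℓ := ℓ) (c1 := c1) rfl hq0 hd0 (lo := lo false) hlo hB
    (Nat.floor_le (a := 2 * (1 + H) * ρV * ρY * (Real.sqrt lo' * Real.sqrt Q / (Nat.gcd d q : ℕ)))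
      (by positivity)) hc
  rw [← hg] at h4 ⊢
  have h5 := h4.trans hμ
  have h6 : 0 ≤ muE I ⌊2 * (1 + H) * ρV * ρY * (Real.sqrt lo' * Real.sqrt Q / (g : ℕ))⌋₊ ℓ q d
      (lo false) := by unfold muE; positivity
  gcongr

/-- **BOT', all fronts common**, across a drop. -/
theorem drop_cN {C : Type*} (hM : ∀ k, 0 < M k) (hK : K0 ⊆ K)
    (h : WinD M (K \ K0) lo hi bk) (hlo : 1 ≤ lo false)
    (J : Finset C) (cl : C → ℕ → ℕ) (κ₂ N : C → ℕ)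
    {Y : Finset β} {m : (κ → ℕ) → β → ℕ} {f Q : ℕ} {V' : (κ → ℕ) → Finset ℕ} {lo' hi' : ℕ}
    {H ρV ρY : ℝ} {A : (κ → ℕ) → Prop} {δ : ℝ} (hU : DropU M K0 Y m f Q V' lo' hi' H ρV ρY A)
    (hA : PrLe M K0 A δ)
    {m0 q D g rV rY t I κc : ℕ} {c1 μ : ℝ} (hm : 0 < m0) (hq0 : 0 < q) (hD : 0 < D)
    (hκ : ∀ c ∈ J, ∀ r, ((range I).filter (fun i => cl c i % D = r % D)).card ≤ κc)
    (hg : g = Nat.gcd D q)
    (h1 : ((f + D / Q + 2 : ℕ) : ℝ) ≤ Real.sqrt lo')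
    (h2 : ((D / f + 2 : ℕ) : ℝ) ≤ Real.sqrt Q) (hrV : 2 * ρV ≤ rV) (hrY : 2 * ρY ≤ rY)
    (hgQ : Nat.Coprime g Q) (hgf : g ∣ f ∨ f ∣ g) (h3 : (g : ℝ) ≤ f * Real.sqrt Q)
    (hc : Real.sqrt lo' * Real.sqrt Q ≤ c1 * Real.sqrt (lo false))
    (hμ : muD H ρV ρY c1 I D q D g ≤ μ) :
    PrLe M K (fun w => ∃ c ∈ J, κc * (rV * rY) * t <
        cN ((Wd lo hi bk w false).image (fun v => m0 * (q * v)))
          ((winU Y (m w) f Q (V' w)).image (fun v => m0 * v)) I m0 D (cl c) (κ₂ c) (m0 * N c))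
      (δ + (J.card : ℝ) * (μ ^ t / (t.factorial : ℝ))) := by
  have hg0 : 0 < g := by rw [hg]; exact Nat.gcd_pos_of_pos_left _ hD
  obtain ⟨b1, b2⟩ := hU.bounds h1 h2 hrV hrY hg0 hgQ hgf h3
  have hB : 0 ≤ 2 * (1 + H) * ρV * ρY := by
    have := hU.hH; have := hU.rV0; have := hU.rY1
    positivity
  have hgR : (0 : ℝ) < g := by exact_mod_cast hg0
  rw [hg] at b2
  refine PrLe_mono (fun _ _ h => h) ?_ (bot_drop_cN hM hK h hlo J cl κ₂ N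
    (fun w => winU Y (m w) f Q (V' w)) hU.dep_win hm hq0 hD I κc (rV * rY) _ t hκ hA b1 b2)
  have h4 := muE_le (nI := I) (ℓ := D) (c1 := c1) rfl hq0 hD (lo := lo false) hlo hB
    (Nat.floor_le (a := 2 * (1 + H) * ρV * ρY * (Real.sqrt lo' * Real.sqrt Q / (Nat.gcd D q : ℕ)))
      (by positivity)) hc
  rw [← hg] at h4 ⊢
  have h5 := h4.trans hμ
  have h6 : 0 ≤ muE I ⌊2 * (1 + H) * ρV * ρY * (Real.sqrt lo' * Real.sqrt Q / (g : ℕ))⌋₊ D q D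
      (lo false) := by unfold muE; positivity
  gcongr

end

end Pool.Agent.Helper66.T5
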