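import Mathlib

/-!
# T5: the local property of a pair of window sets and its closure under one more level of codes
-/

set_option autoImplicit false

namespace Pool.Agent.Helper66.T5

open Finset

/-- The local property of a pair `(U, U')` of window sets, `m` the smaller of the two moduli,
`P` their ratio, `I` the number of values of the parameter, for all `D` with `S0 ∣ D ≤ Dm`. -/
def Loc (m P I S0 Dm : ℕ) (U U' : Finset ℕ) (R : ℕ) : Prop :=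
  ∀ (X : ℤ) (D E : ℕ), 0 < D → S0 ∣ D → D ≤ Dm → E.Coprime P →
    ((range I ×ˢ (U ×ˢ U')).filter
      (fun q => ((q.2.1 : ℤ) + q.2.2 + m * ((E * q.1 % D : ℕ) : ℤ)) = X)).card ≤ R

/-- counting through a map with bounded fibres -/
theorem card_le_of_fibre {α β : Type*} [DecidableEq β] (A : Finset α) (f : α → β) (n : ℕ)
    (T : Finset β) (hT : ∀ a ∈ A, f a ∈ T) (hf : ∀ b ∈ T, (A.filter (fun a => f a = b)).card ≤ n) :
    A.card ≤ n * T.card := by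
  exact Finset.card_le_mul_card_image_of_maps_to hT n hf

/-- the remainder of a shifted progression -/
theorem shift_mod (b x S : ℕ) (hS : 0 < S) :
    ∃ k : ℕ, k ≤ 1 ∧ (b + x) % S + k * S = b % S + x % S := by
  rcases Nat.lt_or_ge (b % S + x % S) S with h | h
  · refine ⟨0, by omega, ?_⟩
    rw [Nat.add_mod, Nat.mod_eq_of_lt h]
    ring
  · refine ⟨1, le_rfl, ?_⟩
    have h1 := Nat.mod_lt b hS
    have h2 := Nat.mod_lt x hS
    rw [Nat.add_mod, Nat.mod_eq_sub_mod h, Nat.mod_eq_of_lt (by omega)]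
    omega

/-- the key computation of closure 1: `Q τ = ξ - (e mod D) - ρ`, `ρ` a multiple of `S` in
`[0, 2 S Q)`, `S ∣ D ≤ Q`: then `τ = Z - (E' i mod S) - k S` for one of four `k`. -/
theorem tau_form (Q S D : ℕ) (hQ : 0 < Q) (hS : 0 < S) (hSD : S ∣ D) (hD0 : 0 < D) (hDQ : D ≤ Q)
    (hco : Q.Coprime S) (ξ : ℤ) (E : ℕ) :
    ∃ (Z : ℤ) (E' : ℕ), ((E' : ℤ) * Q ≡ E [ZMOD S]) ∧
      ∀ (i : ℕ) (τ ρ : ℤ), (S : ℤ) ∣ ρ → 0 ≤ ρ → ρ < 2 * (S * Q) →
        Q * τ = ξ - ((E * i % D : ℕ) : ℤ) - ρ →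
        ∃ k ∈ Finset.range 4, τ = Z - ((E' * i % S : ℕ) : ℤ) - (k : ℤ) * S := by
  obtain ⟨q', hq'⟩ := Int.mod_coprime hco
  have hSz : (0 : ℤ) < S := by exact_mod_cast hS
  have hQz : (0 : ℤ) < Q := by exact_mod_cast hQ
  set T0 : ℤ := ξ / Q with hT0
  set E' : ℕ := ((E : ℤ) * q' % S).toNat with hE'
  have hE'c : (E' : ℤ) = (E : ℤ) * q' % S := Int.toNat_of_nonneg (Int.emod_nonneg _ hSz.ne')
  have hE'm : (E' : ℤ) * Q ≡ E [ZMOD S] := by
    rw [hE'c]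
    calc (E : ℤ) * q' % S * Q ≡ (E * q') * Q [ZMOD S] := (Int.mod_modEq _ _).mul_right _
      _ = E * (Q * q') := by ring
      _ ≡ E * 1 [ZMOD S] := hq'.mul_left _
      _ = E := by ring
  set b : ℕ := ((T0 - ξ * q') % S).toNat with hb
  have hbc : (b : ℤ) = (T0 - ξ * q') % S := Int.toNat_of_nonneg (Int.emod_nonneg _ hSz.ne')
  have hbS : b < S := by
    have : (b : ℤ) < S := by rw [hbc]; exact Int.emod_lt_of_pos _ hSz
    exact_mod_cast this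
  refine ⟨T0 - b + S, E', hE'm, ?_⟩
  intro i τ ρ hρ hρ0 hρ1 heq
  -- congruence
  have hcong : (T0 - τ) ≡ b + E' * i [ZMOD S] := by
    have h1 : ((E * i % D : ℕ) : ℤ) ≡ E * i [ZMOD S] := by
      have h2 : (E * i % D) ≡ E * i [MOD S] := (Nat.mod_modEq _ _).of_dvd hSD
      exact_mod_cast (Int.natCast_modEq_iff.mpr h2)
    have h2 : (Q : ℤ) * τ ≡ ξ - E * i [ZMOD S] := by
      rw [heq]
      have h3 : ρ ≡ 0 [ZMOD S] := (Int.modEq_zero_iff_dvd).mpr hρ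
      calc ξ - ((E * i % D : ℕ) : ℤ) - ρ ≡ ξ - E * i - 0 [ZMOD S] :=
            ((Int.ModEq.refl ξ).sub h1).sub h3
        _ = ξ - E * i := by ring
    have h4 : (τ : ℤ) ≡ ξ * q' - E' * i [ZMOD S] := by
      have h5 : q' * ((Q : ℤ) * τ) ≡ q' * (ξ - E * i) [ZMOD S] := h2.mul_left _
      have h6 : q' * ((Q : ℤ) * τ) ≡ τ [ZMOD S] := by
        calc q' * ((Q : ℤ) * τ) = (Q * q') * τ := by ring
          _ ≡ 1 * τ [ZMOD S] := hq'.mul_right _
          _ = τ := by ring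
      have h7 : (E' : ℤ) * i ≡ q' * (E * i) [ZMOD S] := by
        rw [hE'c]
        calc (E : ℤ) * q' % S * i ≡ (E * q') * i [ZMOD S] := (Int.mod_modEq _ _).mul_right _
          _ = q' * (E * i) := by ring
      calc τ ≡ q' * ((Q : ℤ) * τ) [ZMOD S] := h6.symm
        _ ≡ q' * (ξ - E * i) [ZMOD S] := h5
        _ = ξ * q' - q' * (E * i) := by ring
        _ ≡ ξ * q' - E' * i [ZMOD S] := (Int.ModEq.refl _).sub h7.symm
    calc T0 - τ ≡ T0 - (ξ * q' - E' * i) [ZMOD S] := (Int.ModEq.refl _).sub h4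
      _ = (T0 - ξ * q') + E' * i := by ring
      _ ≡ b + E' * i [ZMOD S] := by
          apply Int.ModEq.add_right
          rw [hbc]
          exact (Int.mod_modEq _ _).symm
  -- bounds
  have hup : τ ≤ T0 := by
    rw [hT0, Int.le_ediv_iff_mul_le hQz]
    have : (0 : ℤ) ≤ ((E * i % D : ℕ) : ℤ) := Int.natCast_nonneg _
    nlinarith
  have hlow : T0 - τ < 2 * S + 1 := by
    have h1 : ((E * i % D : ℕ) : ℤ) < Q := by
      have : E * i % D < Q := lt_of_lt_of_le (Nat.mod_lt _ hD0) hDQ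
      exact_mod_cast this
    have h2 : T0 * Q ≤ ξ := by
      rw [hT0]; exact Int.ediv_mul_le _ hQz.ne'
    by_contra hc
    push Not at hc
    have h3 : (2 * (S : ℤ) + 1) * Q ≤ (T0 - τ) * Q := mul_le_mul_of_nonneg_right hc hQz.le
    nlinarith
  set θ : ℕ := (T0 - τ).toNat with hθ
  have hθc : (θ : ℤ) = T0 - τ := Int.toNat_of_nonneg (by linarith)
  have hθm : θ % S = (b + E' * i) % S := by
    have h1 : (θ : ℤ) ≡ ((b + E' * i : ℕ) : ℤ) [ZMOD S] := by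
      rw [hθc]; push_cast; exact hcong
    exact Int.natCast_modEq_iff.mp h1
  obtain ⟨k1, hk1, hk1e⟩ := shift_mod b (E' * i) S hS
  rw [Nat.mod_eq_of_lt hbS] at hk1e
  have hθd := Nat.div_add_mod θ S
  have hκ : θ / S ≤ 2 := by
    by_contra hc
    push Not at hc
    have h1 : S * 3 ≤ S * (θ / S) := Nat.mul_le_mul_left S hc
    have h2 : θ ≤ 2 * S := by
      have : (θ : ℤ) < 2 * S + 1 := by rw [hθc]; exact hlow
      omega
    omega
  refine ⟨θ / S + 1 - k1, ?_, ?_⟩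
  · rw [Finset.mem_range]; omega
  · have e1 : (θ : ℤ) = S * (θ / S : ℕ) + (θ % S : ℕ) := by exact_mod_cast hθd.symm
    have e2 : (((b + E' * i) % S : ℕ) : ℤ) + k1 * S = b + ((E' * i % S : ℕ) : ℤ) := by
      exact_mod_cast hk1e
    have e3 : ((θ / S + 1 - k1 : ℕ) : ℤ) = ((θ / S : ℕ) : ℤ) + 1 - k1 := by
      have hle : k1 ≤ θ / S + 1 := le_trans hk1 (Nat.le_add_left _ _)
      rw [Nat.cast_sub hle]; push_cast; ring
    rw [e3]
    rw [hθm] at e1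
    have e4 : τ = T0 - θ := by rw [hθc]; ring
    rw [e4, e1]
    linarith

/-- **closure 1**: the chain modulus jumps, the codes of the inner level are modulo the same `Q` and
are multiples of the same `m S`. -/
theorem closure_l {Y Y' : Type*} [DecidableEq Y] [DecidableEq Y'] (Ys : Finset Y) (Ys' : Finset Y')
    (r : Y → ℕ) (r' : Y' → ℕ) (m S Q P I S0 Dm C0 R : ℕ) (hm : 0 < m) (hS : 0 < S) (hQ : 0 < Q)
    (hPS : P ∣ S) (hco : Q.Coprime S) (hS0 : S0 ∣ S) (hDm : S ≤ Dm)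
    (hr : ∀ y ∈ Ys, m * S ∣ r y ∧ r y < m * S * Q)
    (hr' : ∀ y ∈ Ys', m * S ∣ r' y ∧ r' y < m * S * Q)
    (hdec : ∀ z : ℤ, ((Ys ×ˢ Ys').filter
      (fun q => ((r q.1 : ℤ) + r' q.2) ≡ z [ZMOD Q])).card ≤ C0)
    (U U' : Finset ℕ) (hU : ∀ u ∈ U, m * Q ∣ u) (hU' : ∀ u ∈ U', m * Q ∣ u)
    (hin : Loc (m * Q) P I S0 Dm U U' R) (X : ℤ) (D E : ℕ) (hD0 : 0 < D) (hSD : S ∣ D)
    (hDQ : D ≤ Q) (hE : E.Coprime P) :
    ((range I ×ˢ ((Ys ×ˢ U) ×ˢ (Ys' ×ˢ U'))).filter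
      (fun q => ((r q.2.1.1 : ℤ) + q.2.1.2 + (r' q.2.2.1 + q.2.2.2) +
        m * ((E * q.1 % D : ℕ) : ℤ)) = X)).card ≤ C0 * (4 * R) := by
  classical
  set H := (range I ×ˢ ((Ys ×ˢ U) ×ˢ (Ys' ×ˢ U'))).filter
      (fun q => ((r q.2.1.1 : ℤ) + q.2.1.2 + (r' q.2.2.1 + q.2.2.2) +
        m * ((E * q.1 % D : ℕ) : ℤ)) = X) with hH
  rcases H.eq_empty_or_nonempty with he | ⟨h0, hh0⟩
  · rw [he]; simp
  have hmz : (m : ℤ) ≠ 0 := by exact_mod_cast hm.ne'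
  -- `X` is a multiple of `m`
  have hdiv : ∀ q ∈ H, ∃ a a' t t' : ℕ, r q.2.1.1 = m * (S * a) ∧ r' q.2.2.1 = m * (S * a') ∧
      a < Q ∧ a' < Q ∧ q.2.1.2 = m * Q * t ∧ q.2.2.2 = m * Q * t' := by
    intro q hq
    rw [hH, Finset.mem_filter] at hq
    simp only [Finset.mem_product, Finset.mem_range] at hq
    obtain ⟨⟨-, ⟨h1, h2⟩, h3, h4⟩, -⟩ := hq
    obtain ⟨⟨a, ha⟩, hb⟩ := hr _ h1
    obtain ⟨⟨a', ha'⟩, hb'⟩ := hr' _ h3
    obtain ⟨t, ht⟩ := hU _ h2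
    obtain ⟨t', ht'⟩ := hU' _ h4
    refine ⟨a, a', t, t', by rw [ha]; ring, by rw [ha']; ring, ?_, ?_, ht, ht'⟩
    · rw [ha] at hb
      exact lt_of_mul_lt_mul_left hb (Nat.zero_le _)
    · rw [ha'] at hb'
      exact lt_of_mul_lt_mul_left hb' (Nat.zero_le _)
  obtain ⟨ξ, hξ⟩ : (m : ℤ) ∣ X := by
    obtain ⟨a, a', t, t', e1, e2, -, -, e3, e4⟩ := hdiv h0 hh0
    rw [hH, Finset.mem_filter] at hh0
    have e5 := hh0.2
    rw [e1, e2, e3, e4] at e5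
    rw [← e5]
    push_cast
    refine ⟨S * a + Q * t + (S * a' + Q * t') + ((E * h0.1 % D : ℕ) : ℤ), ?_⟩
    push_cast
    ring
  obtain ⟨Z, E', hE', hform⟩ := tau_form Q S D hQ hS hSD hD0 hDQ hco ξ E
  have hE'P : E'.Coprime P := by
    have h1 : (E' * Q) ≡ E [MOD P] := by
      have h2 : ((E' * Q : ℕ) : ℤ) ≡ ((E : ℕ) : ℤ) [ZMOD S] := by push_cast; exact hE'
      exact (Int.natCast_modEq_iff.mp h2).of_dvd hPS
    have h3 : (E' * Q).Coprime P := by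
      have := h1.gcd_eq
      unfold Nat.Coprime at hE ⊢
      rw [this]; exact hE
    exact Nat.Coprime.coprime_mul_right h3
  -- the map to the inner triples
  set G : ℕ → Finset (ℕ × (ℕ × ℕ)) := fun k => (range I ×ˢ (U ×ˢ U')).filter
      (fun q => ((q.2.1 : ℤ) + q.2.2 + ((m * Q : ℕ) : ℤ) * ((E' * q.1 % S : ℕ) : ℤ)) =
        ((m * Q : ℕ) : ℤ) * (Z - k * S)) with hG
  set T := (range 4).biUnion G with hT
  have hTc : T.card ≤ 4 * R := by
    calc T.card ≤ ∑ k ∈ range 4, (G k).card := Finset.card_biUnion_le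
      _ ≤ ∑ k ∈ range 4, R := Finset.sum_le_sum (fun k _ => hin _ S E' hS hS0 hDm hE'P)
      _ = 4 * R := by simp
  have hmap : ∀ q ∈ H, (q.1, (q.2.1.2, q.2.2.2)) ∈ T := by
    intro q hq
    obtain ⟨a, a', t, t', e1, e2, ha, ha', e3, e4⟩ := hdiv q hq
    rw [hH, Finset.mem_filter] at hq
    obtain ⟨hmem, e5⟩ := hq
    simp only [Finset.mem_product, Finset.mem_range] at hmem
    rw [e1, e2, e3, e4, hξ] at e5
    have e6 : (Q : ℤ) * ((t : ℤ) + t') = ξ - ((E * q.1 % D : ℕ) : ℤ) - (S * (a + a')) := by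
      apply mul_left_cancel₀ hmz
      push_cast at e5 ⊢
      linarith
    obtain ⟨k, hk, hk2⟩ := hform q.1 (t + t') (S * (a + a')) (dvd_mul_right _ _) (by positivity)
      (by
        have h1 : (a : ℤ) + a' < 2 * Q := by
          have : a + a' < 2 * Q := by omega
          exact_mod_cast this
        have hSz : (0 : ℤ) < S := by exact_mod_cast hS
        nlinarith) e6
    rw [hT, Finset.mem_biUnion]
    refine ⟨k, hk, ?_⟩
    rw [hG, Finset.mem_filter]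
    simp only [Finset.mem_product, Finset.mem_range]
    refine ⟨⟨hmem.1, hmem.2.1.2, hmem.2.2.2⟩, ?_⟩
    rw [e3, e4]
    push_cast at hk2 ⊢
    linear_combination (m : ℤ) * Q * hk2
  have hfib : ∀ b ∈ T, (H.filter (fun q => (q.1, (q.2.1.2, q.2.2.2)) = b)).card ≤ C0 := by
    intro b _
    refine le_trans ?_ (hdec (X - b.2.1 - b.2.2 - m * ((E * b.1 % D : ℕ) : ℤ)))
    apply Finset.card_le_card_of_injOn (fun q => (q.2.1.1, q.2.2.1))
    · intro q hq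
      rw [Finset.mem_coe, Finset.mem_filter, hH, Finset.mem_filter] at hq
      obtain ⟨⟨hmem, e5⟩, hb⟩ := hq
      simp only [Finset.mem_product, Finset.mem_range] at hmem
      rw [Finset.mem_coe, Finset.mem_filter, Finset.mem_product]
      refine ⟨⟨hmem.2.1.1, hmem.2.2.1⟩, ?_⟩
      subst hb
      rw [← e5]
      ring_nf
      exact Int.ModEq.refl _
    · intro q hq q' hq' heq
      rw [Finset.mem_coe, Finset.mem_filter] at hq hq'
      have h1 := hq.2.trans hq'.2.symm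
      simp only [Prod.mk.injEq] at h1 heq
      ext
      · exact h1.1
      · exact heq.1
      · exact h1.2.1
      · exact heq.2
      · exact h1.2.2
  calc H.card ≤ C0 * T.card := card_le_of_fibre H _ C0 T hmap hfib
    _ ≤ C0 * (4 * R) := Nat.mul_le_mul_left _ hTc

/-- the key computation of closure 2: the sum `ρ` of the codes of the inner level is a multiple of
`N`, `0 ≤ ρ < 2 N Qs`, and `ρ ≡ t + Q' (E j mod Δ)` modulo `Qs = Q' Δ`. -/
theorem rho_form (N Q' Δ : ℕ) (hN : 0 < N) (hQ' : 0 < Q') (hΔ : 0 < Δ)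
    (hco : N.Coprime (Q' * Δ)) (t E : ℕ) :
    ∃ (ρ0 : ℤ) (E3 : ℕ), ((E3 : ℤ) * N ≡ E [ZMOD Δ]) ∧
      ∀ (j : ℕ) (ρ : ℤ), (N : ℤ) ∣ ρ → 0 ≤ ρ → ρ < 2 * (N * (Q' * Δ)) →
        ρ ≡ t + Q' * ((E * j % Δ : ℕ) : ℤ) [ZMOD (Q' * Δ : ℕ)] →
        ∃ k ∈ Finset.range 3, ρ = ρ0 + N * Q' * ((E3 * j % Δ : ℕ) : ℤ) + (k : ℤ) * (N * (Q' * Δ)) := by
  have hcoΔ : N.Coprime Δ := Nat.Coprime.coprime_mul_left_right hco
  obtain ⟨n1, hn1⟩ := Int.mod_coprime hco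
  obtain ⟨n2, hn2⟩ := Int.mod_coprime hcoΔ
  have hNz : (0 : ℤ) < N := by exact_mod_cast hN
  have hQz : (0 : ℤ) < Q' := by exact_mod_cast hQ'
  have hΔz : (0 : ℤ) < Δ := by exact_mod_cast hΔ
  set E3 : ℕ := ((E : ℤ) * n2 % Δ).toNat with hE3
  have hE3c : (E3 : ℤ) = (E : ℤ) * n2 % Δ := Int.toNat_of_nonneg (Int.emod_nonneg _ hΔz.ne')
  have hE3m : (E3 : ℤ) * N ≡ E [ZMOD Δ] := by
    rw [hE3c]
    calc (E : ℤ) * n2 % Δ * N ≡ (E * n2) * N [ZMOD Δ] := (Int.mod_modEq _ _).mul_right _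
      _ = E * (N * n2) := by ring
      _ ≡ E * 1 [ZMOD Δ] := hn2.mul_left _
      _ = E := by ring
  set L : ℤ := N * (Q' * Δ) with hL
  have hLpos : 0 < L := by positivity
  set ρ1 : ℤ := (N * (n1 * t)) % L with hρ1
  have hρ1a : 0 ≤ ρ1 := Int.emod_nonneg _ hLpos.ne'
  have hρ1b : ρ1 < L := Int.emod_lt_of_pos _ hLpos
  have hρ1N : (N : ℤ) ∣ ρ1 := by
    have h1 : ρ1 ≡ N * (n1 * t) [ZMOD L] := Int.mod_modEq _ _
    have h2 : ρ1 ≡ N * (n1 * t) [ZMOD N] := h1.of_dvd (dvd_mul_right _ _)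
    have h3 : (N : ℤ) * (n1 * t) ≡ 0 [ZMOD N] := (Int.modEq_zero_iff_dvd).mpr (dvd_mul_right _ _)
    exact (Int.modEq_zero_iff_dvd).mp (h2.trans h3)
  have hρ1t : ρ1 ≡ t [ZMOD (Q' * Δ : ℕ)] := by
    have h1 : ρ1 ≡ N * (n1 * t) [ZMOD L] := Int.mod_modEq _ _
    have h2 : ρ1 ≡ N * (n1 * t) [ZMOD (Q' * Δ : ℕ)] := by
      apply h1.of_dvd
      rw [hL]; push_cast
      exact dvd_mul_left _ _
    refine h2.trans ?_
    calc (N : ℤ) * (n1 * t) = (N * n1) * t := by ring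
      _ ≡ 1 * t [ZMOD (Q' * Δ : ℕ)] := hn1.mul_right _
      _ = t := by ring
  refine ⟨ρ1 - L, E3, hE3m, ?_⟩
  intro j ρ hρN hρ0 hρL hcong
  have hj0 : (0 : ℤ) ≤ ((E3 * j % Δ : ℕ) : ℤ) := Int.natCast_nonneg _
  have hjΔ : ((E3 * j % Δ : ℕ) : ℤ) < Δ := by exact_mod_cast Nat.mod_lt _ hΔ
  -- the difference is a multiple of `L`
  have hd1 : (N : ℤ) ∣ ρ - ρ1 - N * Q' * ((E3 * j % Δ : ℕ) : ℤ) :=
    dvd_sub (dvd_sub hρN hρ1N) (by rw [mul_assoc]; exact dvd_mul_right _ _)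
  have hd2 : ((Q' * Δ : ℕ) : ℤ) ∣ ρ - ρ1 - N * Q' * ((E3 * j % Δ : ℕ) : ℤ) := by
    rw [← Int.modEq_zero_iff_dvd]
    have h1 : (N : ℤ) * Q' * ((E3 * j % Δ : ℕ) : ℤ) ≡ Q' * ((E * j % Δ : ℕ) : ℤ)
        [ZMOD (Q' * Δ : ℕ)] := by
      have h2 : (N : ℤ) * ((E3 * j % Δ : ℕ) : ℤ) ≡ ((E * j % Δ : ℕ) : ℤ) [ZMOD Δ] := by
        have h3 : ((E3 * j % Δ : ℕ) : ℤ) ≡ E3 * j [ZMOD Δ] := by
          push_cast
          exact Int.mod_modEq _ _
        have h4 : ((E * j % Δ : ℕ) : ℤ) ≡ E * j [ZMOD Δ] := by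
          push_cast
          exact Int.mod_modEq _ _
        calc (N : ℤ) * ((E3 * j % Δ : ℕ) : ℤ) ≡ N * (E3 * j) [ZMOD Δ] := h3.mul_left _
          _ = (E3 * N) * j := by ring
          _ ≡ E * j [ZMOD Δ] := hE3m.mul_right _
          _ ≡ _ [ZMOD Δ] := h4.symm
      have h5 := h2.mul_left' (c := (Q' : ℤ))
      push_cast at h5 ⊢
      calc (N : ℤ) * Q' * ((E3 : ℤ) * j % Δ) = Q' * (N * ((E3 : ℤ) * j % Δ)) := by ring
        _ ≡ _ [ZMOD (Q' * Δ)] := h5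
    calc ρ - ρ1 - N * Q' * ((E3 * j % Δ : ℕ) : ℤ)
        ≡ (t + Q' * ((E * j % Δ : ℕ) : ℤ)) - t - Q' * ((E * j % Δ : ℕ) : ℤ)
          [ZMOD (Q' * Δ : ℕ)] := (hcong.sub hρ1t).sub h1
      _ = 0 := by ring
  have hcoz : IsCoprime (N : ℤ) ((Q' * Δ : ℕ) : ℤ) := Nat.isCoprime_iff_coprime.mpr hco
  obtain ⟨k, hk⟩ := hcoz.mul_dvd hd1 hd2
  have hk' : ρ = ρ1 + N * Q' * ((E3 * j % Δ : ℕ) : ℤ) + k * L := by
    have : (N : ℤ) * ((Q' * Δ : ℕ) : ℤ) = L := by rw [hL]; push_cast; ring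
    rw [this] at hk
    linarith
  have hmid : (N : ℤ) * Q' * ((E3 * j % Δ : ℕ) : ℤ) < L := by
    rw [hL, mul_assoc]
    exact mul_lt_mul_of_pos_left (mul_lt_mul_of_pos_left hjΔ hQz) hNz
  have hmid0 : 0 ≤ (N : ℤ) * Q' * ((E3 * j % Δ : ℕ) : ℤ) := by positivity
  have hk1 : k < 2 := by
    by_contra hc
    push Not at hc
    have : 2 * L ≤ k * L := mul_le_mul_of_nonneg_right hc hLpos.le
    linarith
  have hk2 : -2 < k := by
    by_contra hc
    push Not at hc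
    have : k * L ≤ -2 * L := mul_le_mul_of_nonneg_right hc hLpos.le
    linarith
  refine ⟨(k + 1).toNat, ?_, ?_⟩
  · rw [Finset.mem_range]; omega
  · rw [Int.toNat_of_nonneg (by omega), hk']
    ring

/-- **closure 2**: the moduli of the inner level are `Q'` and `Q' P` (growth or shrinking of one
family), the outer modulus `m` and the multiple `m S` are the same; the codes are taken modulo
`Q' Δ`. -/
theorem closure_g {Y Y' : Type*} [DecidableEq Y] [DecidableEq Y'] (Ys : Finset Y) (Ys' : Finset Y')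
    (r : Y → ℕ) (r' : Y' → ℕ) (m S Q' Δ P J S0 Dm C0 C1 R : ℕ) (hm : 0 < m) (hS : 0 < S)
    (hQ' : 0 < Q') (hΔ : 0 < Δ) (hco : (m * S).Coprime (Q' * Δ)) (hPΔ : P ∣ Δ) (hSP : S.Coprime P)
    (hS0 : S0 ∣ S * Δ) (hDm : S * Δ ≤ Dm)
    (hr : ∀ y ∈ Ys, m * S ∣ r y ∧ r y < m * S * (Q' * Δ))
    (hr' : ∀ y ∈ Ys', m * S ∣ r' y ∧ r' y < m * S * (Q' * Δ))
    (hdec : ∀ z : ℤ, ∃ (T : Finset (ℕ × ℕ)) (f : Y × Y' → (ℕ × ℕ) × ℕ), T.card ≤ C0 ∧
      (∀ te ∈ T, te.2.Coprime P) ∧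
      (∀ q ∈ Ys ×ˢ Ys', ((r q.1 : ℤ) + r' q.2) ≡ z [ZMOD Q'] →
        (f q).1 ∈ T ∧ (f q).2 < J ∧ ((r q.1 : ℤ) + r' q.2) ≡
          (f q).1.1 + Q' * (((f q).1.2 * (f q).2 % Δ : ℕ) : ℤ) [ZMOD (Q' * Δ : ℕ)]) ∧
      ∀ b, ((Ys ×ˢ Ys').filter
        (fun q => ((r q.1 : ℤ) + r' q.2) ≡ z [ZMOD Q'] ∧ f q = b)).card ≤ C1)
    (U U' : Finset ℕ) (hU : ∀ u ∈ U, m * Q' ∣ u) (hU' : ∀ u ∈ U', m * Q' ∣ u)
    (hin : Loc (m * Q') P J S0 Dm U U' R) (X : ℤ) :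
    (((Ys ×ˢ U) ×ˢ (Ys' ×ˢ U')).filter
      (fun q => ((r q.1.1 : ℤ) + q.1.2 + (r' q.2.1 + q.2.2)) = X)).card ≤ C1 * (C0 * (3 * R)) := by
  classical
  obtain ⟨T, f, hTc, hTP, hf, hfib⟩ := hdec X
  set H := ((Ys ×ˢ U) ×ˢ (Ys' ×ˢ U')).filter
      (fun q => ((r q.1.1 : ℤ) + q.1.2 + (r' q.2.1 + q.2.2)) = X) with hH
  choose ρ0 E3 hE3 hform using fun te : ℕ × ℕ =>
    rho_form (m * S) Q' Δ (Nat.mul_pos hm hS) hQ' hΔ hco te.1 te.2
  set G : ℕ × ℕ → ℕ → Finset (ℕ × (ℕ × ℕ)) := fun te k => (range J ×ˢ (U ×ˢ U')).filter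
      (fun q => ((q.2.1 : ℤ) + q.2.2 + ((m * Q' : ℕ) : ℤ) * ((S * E3 te * q.1 % (S * Δ) : ℕ) : ℤ)) =
        X - ρ0 te - (k : ℤ) * (((m * S : ℕ) : ℤ) * (Q' * Δ))) with hG
  set T' : Finset ((ℕ × ℕ) × (ℕ × (ℕ × ℕ))) :=
    T.biUnion (fun te => (range 3).biUnion (fun k => (G te k).image (fun x => (te, x)))) with hT'
  have hGc : ∀ te ∈ T, ∀ k, (G te k).card ≤ R := by
    intro te hte k
    apply hin _ (S * Δ) (S * E3 te) (Nat.mul_pos hS hΔ) hS0 hDm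
    apply Nat.Coprime.mul_left hSP
    have h1 : (E3 te * (m * S)) ≡ te.2 [MOD P] := by
      have h2 : ((E3 te * (m * S) : ℕ) : ℤ) ≡ ((te.2 : ℕ) : ℤ) [ZMOD Δ] := by
        have h := hE3 te
        push_cast at h ⊢
        exact h
      exact (Int.natCast_modEq_iff.mp h2).of_dvd hPΔ
    have h3 : (E3 te * (m * S)).Coprime P := by
      have := h1.gcd_eq
      have h4 := hTP te hte
      unfold Nat.Coprime at h4 ⊢
      rw [this]; exact h4
    exact Nat.Coprime.coprime_mul_right h3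
  have hT'c : T'.card ≤ C0 * (3 * R) := by
    calc T'.card ≤ ∑ te ∈ T, ((range 3).biUnion
          (fun k => (G te k).image (fun x => (te, x)))).card := Finset.card_biUnion_le
      _ ≤ ∑ te ∈ T, 3 * R := by
          apply Finset.sum_le_sum
          intro te hte
          calc ((range 3).biUnion (fun k => (G te k).image (fun x => (te, x)))).card
              ≤ ∑ k ∈ range 3, ((G te k).image (fun x => (te, x))).card := Finset.card_biUnion_le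
            _ ≤ ∑ k ∈ range 3, R := Finset.sum_le_sum
                (fun k _ => le_trans Finset.card_image_le (hGc te hte k))
            _ = 3 * R := by simp
      _ = T.card * (3 * R) := by simp
      _ ≤ C0 * (3 * R) := Nat.mul_le_mul_right _ hTc
  have hcg : ∀ q ∈ H, ((r q.1.1 : ℤ) + r' q.2.1) ≡ X [ZMOD Q'] := by
    intro q hq
    rw [hH, Finset.mem_filter] at hq
    obtain ⟨hmem, e5⟩ := hq
    simp only [Finset.mem_product] at hmem
    obtain ⟨t, ht⟩ := hU _ hmem.1.2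
    obtain ⟨t', ht'⟩ := hU' _ hmem.2.2
    rw [← e5, ht, ht']
    rw [Int.modEq_iff_dvd]
    push_cast
    refine ⟨m * t + m * t', ?_⟩
    ring
  have hmap : ∀ q ∈ H, ((f (q.1.1, q.2.1)).1, ((f (q.1.1, q.2.1)).2, (q.1.2, q.2.2))) ∈ T' := by
    intro q hq
    have hc := hcg q hq
    rw [hH, Finset.mem_filter] at hq
    obtain ⟨hmem, e5⟩ := hq
    simp only [Finset.mem_product] at hmem
    obtain ⟨f1, f2, f3⟩ := hf (q.1.1, q.2.1) (Finset.mem_product.mpr ⟨hmem.1.1, hmem.2.1⟩) hc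
    obtain ⟨r1, r2⟩ := hr _ hmem.1.1
    obtain ⟨r1', r2'⟩ := hr' _ hmem.2.1
    obtain ⟨k, hk, hk2⟩ := hform (f (q.1.1, q.2.1)).1 (f (q.1.1, q.2.1)).2
      ((r q.1.1 : ℤ) + r' q.2.1)
      (dvd_add (by exact_mod_cast r1) (by exact_mod_cast r1')) (by positivity)
      (by
        have : r q.1.1 + r' q.2.1 < 2 * (m * S * (Q' * Δ)) := by omega
        exact_mod_cast this) f3
    rw [hT', Finset.mem_biUnion]
    refine ⟨_, f1, ?_⟩
    rw [Finset.mem_biUnion]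
    refine ⟨k, hk, ?_⟩
    rw [Finset.mem_image]
    refine ⟨((f (q.1.1, q.2.1)).2, (q.1.2, q.2.2)), ?_, rfl⟩
    rw [hG, Finset.mem_filter]
    simp only [Finset.mem_product, Finset.mem_range]
    refine ⟨⟨f2, hmem.1.2, hmem.2.2⟩, ?_⟩
    have e7 : S * E3 (f (q.1.1, q.2.1)).1 * (f (q.1.1, q.2.1)).2 % (S * Δ) =
        S * (E3 (f (q.1.1, q.2.1)).1 * (f (q.1.1, q.2.1)).2 % Δ) := by
      rw [mul_assoc, Nat.mul_mod_mul_left]
    rw [e7]
    push_cast at hk2 ⊢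
    linear_combination e5 - hk2
  have hfibH : ∀ b ∈ T', (H.filter (fun q =>
      ((f (q.1.1, q.2.1)).1, ((f (q.1.1, q.2.1)).2, (q.1.2, q.2.2))) = b)).card ≤ C1 := by
    intro b _
    refine le_trans ?_ (hfib (b.1, b.2.1))
    apply Finset.card_le_card_of_injOn (fun q => (q.1.1, q.2.1))
    · intro q hq
      rw [Finset.mem_coe, Finset.mem_filter] at hq
      obtain ⟨hqH, hb⟩ := hq
      have hc := hcg q hqH
      rw [hH, Finset.mem_filter] at hqH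
      obtain ⟨hmem, e5⟩ := hqH
      simp only [Finset.mem_product] at hmem
      rw [Finset.mem_coe, Finset.mem_filter, Finset.mem_product]
      refine ⟨⟨hmem.1.1, hmem.2.1⟩, hc, ?_⟩
      subst hb
      rfl
    · intro q hq q' hq' heq
      rw [Finset.mem_coe, Finset.mem_filter] at hq hq'
      have h1 := hq.2.trans hq'.2.symm
      simp only [Prod.mk.injEq] at h1 heq
      ext
      · exact heq.1
      · exact h1.2.2.1
      · exact heq.2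
      · exact h1.2.2.2
  calc H.card ≤ C1 * T'.card := card_le_of_fibre H _ C1 T' hmap hfibH
    _ ≤ C1 * (C0 * (3 * R)) := Nat.mul_le_mul_left _ hT'c

/-- **closure 3**: neither `m` nor `Q` changes. -/
theorem closure_0 {Y Y' : Type*} [DecidableEq Y] [DecidableEq Y'] (Ys : Finset Y) (Ys' : Finset Y')
    (r : Y → ℕ) (r' : Y' → ℕ) (m Q S0 Dm C0 R : ℕ) (hS0 : 0 < S0) (hS0D : S0 ≤ Dm)
    (hdec : ∀ z : ℤ, ((Ys ×ˢ Ys').filter
      (fun q => ((r q.1 : ℤ) + r' q.2) ≡ z [ZMOD Q])).card ≤ C0)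
    (U U' : Finset ℕ) (hU : ∀ u ∈ U, m * Q ∣ u) (hU' : ∀ u ∈ U', m * Q ∣ u)
    (hin : Loc (m * Q) 1 1 S0 Dm U U' R) (X : ℤ) :
    (((Ys ×ˢ U) ×ˢ (Ys' ×ˢ U')).filter
      (fun q => ((r q.1.1 : ℤ) + q.1.2 + (r' q.2.1 + q.2.2)) = X)).card ≤ R * C0 := by
  classical
  set H := ((Ys ×ˢ U) ×ˢ (Ys' ×ˢ U')).filter
      (fun q => ((r q.1.1 : ℤ) + q.1.2 + (r' q.2.1 + q.2.2)) = X) with hH
  have h1 := Finset.card_le_mul_card_image_of_maps_to (s := H)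
    (t := (Ys ×ˢ Ys').filter (fun q => ((r q.1 : ℤ) + r' q.2) ≡ X [ZMOD Q]))
    (f := fun q => (q.1.1, q.2.1)) ?_ R ?_
  · exact le_trans h1 (Nat.mul_le_mul_left _ (hdec X))
  · intro q hq
    rw [hH, Finset.mem_filter] at hq
    obtain ⟨hmem, e5⟩ := hq
    simp only [Finset.mem_product] at hmem
    obtain ⟨t, ht⟩ := hU _ hmem.1.2
    obtain ⟨t', ht'⟩ := hU' _ hmem.2.2
    rw [Finset.mem_filter, Finset.mem_product]
    refine ⟨⟨hmem.1.1, hmem.2.1⟩, ?_⟩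
    rw [← e5, ht, ht', Int.modEq_iff_dvd]
    push_cast
    refine ⟨m * t + m * t', ?_⟩
    ring
  · intro b hb
    refine le_trans ?_ (hin (X - r b.1 - r' b.2) S0 1 hS0 dvd_rfl hS0D (Nat.coprime_one_right 1))
    apply Finset.card_le_card_of_injOn (fun q => (0, (q.1.2, q.2.2)))
    · intro q hq
      rw [Finset.mem_coe, Finset.mem_filter, hH, Finset.mem_filter] at hq
      obtain ⟨⟨hmem, e5⟩, hb'⟩ := hq
      simp only [Finset.mem_product] at hmem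
      rw [Finset.mem_coe, Finset.mem_filter]
      simp only [Finset.mem_product, Finset.mem_range]
      refine ⟨⟨Nat.one_pos, hmem.1.2, hmem.2.2⟩, ?_⟩
      subst hb'
      simp only [mul_zero, Nat.zero_mod, Nat.cast_zero, mul_zero, add_zero]
      linarith
    · intro q hq q' hq' heq
      rw [Finset.mem_coe, Finset.mem_filter] at hq hq'
      have h2 := hq.2.trans hq'.2.symm
      simp only [Prod.mk.injEq] at h2 heq
      ext
      · exact h2.1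
      · exact heq.2.1
      · exact h2.2
      · exact heq.2.2

end Pool.Agent.Helper66.T5
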