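import Mathlib

/-!
# T5a, line NE9: the numbers
-/

set_option autoImplicit false

namespace Pool.Agent.Helper66.T5

open Real

/-- a factorial tail -/
theorem tail_exp {μ : ℝ} {t : ℕ} (hμ : 0 ≤ μ) (h : exp 2 * μ ≤ t) :
    μ ^ t / (t.factorial : ℝ) ≤ exp (-(t : ℝ)) := by
  have h0 : (0 : ℝ) ≤ t := Nat.cast_nonneg t
  have h1 := Real.pow_div_factorial_le_exp (t : ℝ) h0 t
  have h2 : μ ≤ exp (-2) * t := by
    rw [Real.exp_neg]
    rw [inv_mul_eq_div, le_div_iff₀ (exp_pos _)]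
    linarith
  have h3 : μ ^ t ≤ exp (-2 * t) * (t : ℝ) ^ t := by
    calc μ ^ t ≤ (exp (-2) * t) ^ t := pow_le_pow_left₀ hμ h2 t
      _ = exp (-2 * t) * (t : ℝ) ^ t := by
          rw [mul_pow, ← Real.exp_nat_mul]
          congr 2
          ring
  calc μ ^ t / (t.factorial : ℝ) ≤ exp (-2 * t) * (t : ℝ) ^ t / (t.factorial : ℝ) := by gcongr
    _ = exp (-2 * t) * ((t : ℝ) ^ t / (t.factorial : ℝ)) := by ring
    _ ≤ exp (-2 * t) * exp t := mul_le_mul_of_nonneg_left h1 (exp_pos _).le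
    _ = exp (-(t : ℝ)) := by rw [← Real.exp_add]; congr 1; ring

theorem exp_two_lt : exp 2 < 7.4 := by
  have h1 := Real.exp_one_lt_d9
  have h2 : exp 2 = exp 1 * exp 1 := by rw [← Real.exp_add]; norm_num
  rw [h2]
  nlinarith [Real.exp_pos 1]

theorem exp_neg_one_gt : 0.36 < exp (-1) := by
  have h1 := Real.exp_one_lt_d9
  rw [Real.exp_neg, lt_inv_comm₀ (by norm_num) (exp_pos _)]
  refine h1.trans ?_
  norm_num

/-- the two terms of the condition on the number `t` -/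
theorem pp_main {Ih If K0 A pc φ d s s' w c9 x W t0 mu : ℝ}
    (hx : 1 ≤ x) (hW : 1 ≤ W) (ht0 : t0 = 200 * x ^ 3) (hIh0 : 1 ≤ Ih)
    (hIh : Ih ≤ exp (d / 2 - s') + 1) (hK0 : 1 ≤ K0) (hA0 : 0 ≤ A) (hA : A ≤ K0)
    (hφ : φ = exp (s' - s - d)) (hpc0 : 0 ≤ pc) (hpc : pc ≤ 2 * φ) (hφw : φ ≤ exp (-(w / 512)))
    (hIf : If ≤ exp (d / 2)) (hIf0 : 0 ≤ If)
    (hmu : mu ≤ 16 * 1000038 * (If * φ⁻¹) * exp (-d)) (hd : x ^ 9 * c9 ≤ exp (d / 2))
    (hs : 0.0107 * w ≤ s) (hs' : 0.0107 * w ≤ s') (hd0 : 0 ≤ d) (hw : 0 ≤ w)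
    (hc9 : 30 * 720000000 * 200 * K0 ≤ c9)
    (hl1 : 30 * 720000000 * 200 * K0 * x ^ 3 * exp (-(0.0107 * w)) ≤ 1)
    (hl2 : 20 * 6 * 200 * 101 * 2 * K0 * x ^ 6 * W * exp (-(w / 512)) ≤ 1) :
    (2 * (Ih * t0) + 1) * A * pc * (exp 2 * mu + 100 * x ^ 3 * W + 1) ≤ exp (-1) := by
  have hφ0 : 0 < φ := by rw [hφ]; exact exp_pos _
  have hx3 : 1 ≤ x ^ 3 := one_le_pow₀ hx
  have ht1 : 1 ≤ t0 := by rw [ht0]; linarith
  have hIt : 1 ≤ Ih * t0 := by nlinarith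
  have e2 := exp_two_lt
  have e1 := exp_neg_one_gt
  -- the factor
  have hZ : (2 * (Ih * t0) + 1) * A * pc ≤ 6 * (Ih * t0) * K0 * φ := by
    have a1 : (2 * (Ih * t0) + 1) * A ≤ 3 * (Ih * t0) * K0 := by
      have : 2 * (Ih * t0) + 1 ≤ 3 * (Ih * t0) := by linarith
      exact mul_le_mul this hA hA0 (by positivity)
    calc (2 * (Ih * t0) + 1) * A * pc ≤ 3 * (Ih * t0) * K0 * (2 * φ) :=
          mul_le_mul a1 hpc hpc0 (by positivity)
      _ = _ := by ring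
  have hZ0 : 0 ≤ 6 * (Ih * t0) * K0 * φ := by positivity
  -- first term
  have hmu2 : φ * mu ≤ 16 * 1000038 * exp (-(d / 2)) := by
    have a1 : φ * mu ≤ φ * (16 * 1000038 * (If * φ⁻¹) * exp (-d)) :=
      mul_le_mul_of_nonneg_left hmu hφ0.le
    have a2 : φ * (16 * 1000038 * (If * φ⁻¹) * exp (-d)) = 16 * 1000038 * (If * exp (-d)) := by
      field_simp
    have a3 : If * exp (-d) ≤ exp (-(d / 2)) := by
      calc If * exp (-d) ≤ exp (d / 2) * exp (-d) := mul_le_mul_of_nonneg_right hIf (exp_pos _).le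
        _ = exp (-(d / 2)) := by rw [← Real.exp_add]; congr 1; ring
    rw [a2] at a1
    linarith
  have hIe : Ih * exp (-(d / 2)) ≤ exp (-(0.0107 * w)) + exp (-(d / 2)) := by
    calc Ih * exp (-(d / 2)) ≤ (exp (d / 2 - s') + 1) * exp (-(d / 2)) :=
          mul_le_mul_of_nonneg_right hIh (exp_pos _).le
      _ = exp (-s') + exp (-(d / 2)) := by
          rw [add_mul, ← Real.exp_add, one_mul]
          congr 2
          ring
      _ ≤ _ := by
          have : exp (-s') ≤ exp (-(0.0107 * w)) := Real.exp_le_exp.2 (by linarith)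
          linarith
  have hd2 : 30 * 720000000 * 200 * K0 * x ^ 3 * exp (-(d / 2)) ≤ 1 := by
    have a1 : exp (-(d / 2)) = (exp (d / 2))⁻¹ := Real.exp_neg _
    rw [a1, ← div_eq_mul_inv, div_le_one (exp_pos _)]
    refine le_trans ?_ hd
    have a2 : x ^ 3 ≤ x ^ 9 := pow_le_pow_right₀ hx (by norm_num)
    have a3 : 0 ≤ 30 * 720000000 * 200 * K0 := by positivity
    calc 30 * 720000000 * 200 * K0 * x ^ 3 ≤ c9 * x ^ 9 :=
          mul_le_mul hc9 a2 (by positivity) (a3.trans hc9)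
      _ = _ := mul_comm _ _
  have T1 : 6 * (Ih * t0) * K0 * φ * (exp 2 * mu) ≤ 1 / 15 := by
    have a1 : 6 * (Ih * t0) * K0 * φ * (exp 2 * mu) =
        6 * exp 2 * t0 * K0 * (Ih * (φ * mu)) := by ring
    have a2 : Ih * (φ * mu) ≤ 16 * 1000038 * (exp (-(0.0107 * w)) + exp (-(d / 2))) := by
      calc Ih * (φ * mu) ≤ Ih * (16 * 1000038 * exp (-(d / 2))) :=
            mul_le_mul_of_nonneg_left hmu2 (by linarith)
        _ = 16 * 1000038 * (Ih * exp (-(d / 2))) := by ring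
        _ ≤ _ := mul_le_mul_of_nonneg_left hIe (by norm_num)
    have a3 : 6 * exp 2 * t0 * K0 * (Ih * (φ * mu)) ≤
        6 * exp 2 * t0 * K0 * (16 * 1000038 * (exp (-(0.0107 * w)) + exp (-(d / 2)))) :=
      mul_le_mul_of_nonneg_left a2 (by positivity)
    have a4 : 6 * exp 2 * t0 * K0 * (16 * 1000038 * (exp (-(0.0107 * w)) + exp (-(d / 2)))) ≤
        720000000 * (200 * x ^ 3) * K0 * (exp (-(0.0107 * w)) + exp (-(d / 2))) := by
      rw [ht0]
      have b1 : 6 * exp 2 * (16 * 1000038) ≤ 720000000 := by linarith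
      have b2 : 0 ≤ (200 * x ^ 3) * K0 * (exp (-(0.0107 * w)) + exp (-(d / 2))) := by positivity
      nlinarith [mul_le_mul_of_nonneg_right b1 b2]
    rw [a1]
    refine a3.trans (a4.trans ?_)
    have a5 : 720000000 * (200 * x ^ 3) * K0 * (exp (-(0.0107 * w)) + exp (-(d / 2))) =
        (30 * 720000000 * 200 * K0 * x ^ 3 * exp (-(0.0107 * w)) +
          30 * 720000000 * 200 * K0 * x ^ 3 * exp (-(d / 2))) / 30 := by ring
    rw [a5]
    linarith
  -- second term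
  have hIφ : Ih * φ ≤ 2 * exp (-(w / 512)) := by
    calc Ih * φ ≤ (exp (d / 2 - s') + 1) * φ := mul_le_mul_of_nonneg_right hIh hφ0.le
      _ = exp (-(d / 2) - s) + φ := by
          rw [add_mul, one_mul, hφ, ← Real.exp_add]
          congr 2
          ring
      _ ≤ exp (-(w / 512)) + exp (-(w / 512)) := by
          refine add_le_add (Real.exp_le_exp.2 ?_) hφw
          linarith
      _ = _ := by ring
  have T2 : 6 * (Ih * t0) * K0 * φ * (100 * x ^ 3 * W + 1) ≤ 1 / 20 := by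
    have a1 : 100 * x ^ 3 * W + 1 ≤ 101 * x ^ 3 * W := by nlinarith
    calc 6 * (Ih * t0) * K0 * φ * (100 * x ^ 3 * W + 1)
        ≤ 6 * (Ih * t0) * K0 * φ * (101 * x ^ 3 * W) := mul_le_mul_of_nonneg_left a1 hZ0
      _ = 6 * 101 * t0 * K0 * x ^ 3 * W * (Ih * φ) := by ring
      _ ≤ 6 * 101 * t0 * K0 * x ^ 3 * W * (2 * exp (-(w / 512))) :=
          mul_le_mul_of_nonneg_left hIφ (by positivity)
      _ = (20 * 6 * 200 * 101 * 2 * K0 * x ^ 6 * W * exp (-(w / 512))) / 20 := by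
          rw [ht0]; ring
      _ ≤ 1 / 20 := by linarith
  rcases le_or_gt 0 (exp 2 * mu + 100 * x ^ 3 * W + 1) with hpos | hneg
  · calc (2 * (Ih * t0) + 1) * A * pc * (exp 2 * mu + 100 * x ^ 3 * W + 1)
        ≤ 6 * (Ih * t0) * K0 * φ * (exp 2 * mu + 100 * x ^ 3 * W + 1) :=
          mul_le_mul_of_nonneg_right hZ hpos
      _ = 6 * (Ih * t0) * K0 * φ * (exp 2 * mu) +
          6 * (Ih * t0) * K0 * φ * (100 * x ^ 3 * W + 1) := by ring
      _ ≤ exp (-1) := by linarith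
  · have : 0 ≤ (2 * (Ih * t0) + 1) * A * pc := by positivity
    exact (mul_nonpos_of_nonneg_of_nonpos this hneg.le).trans (exp_pos _).le

/-- the second part of the bound -/
theorem pp_tail {hi mu x W : ℝ} {t0 : ℕ} (hx : 1 ≤ x) (hW : 1 ≤ W) (ht0 : (t0 : ℝ) = 200 * x ^ 3)
    (hi0 : 0 ≤ hi) (hhi : hi ≤ exp (28 * W)) (hmu0 : 0 ≤ mu) (hmu : mu ≤ exp (-W)) :
    hi * (mu ^ (t0 + 1) / ((t0 + 1).factorial : ℝ)) ≤ exp (-(100 * x ^ 3 * W)) := by
  have hx3 : 1 ≤ x ^ 3 := one_le_pow₀ hx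
  have h1 : (1 : ℝ) ≤ ((t0 + 1).factorial : ℝ) := by exact_mod_cast Nat.succ_le_of_lt (Nat.factorial_pos _)
  have h2 : mu ^ (t0 + 1) / ((t0 + 1).factorial : ℝ) ≤ mu ^ (t0 + 1) :=
    div_le_self (by positivity) h1
  have h3 : mu ^ (t0 + 1) ≤ exp (-(W * (t0 + 1))) := by
    calc mu ^ (t0 + 1) ≤ exp (-W) ^ (t0 + 1) := pow_le_pow_left₀ hmu0 hmu _
      _ = exp (-(W * (t0 + 1))) := by
          rw [← Real.exp_nat_mul]
          congr 1
          push_cast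
          ring
  calc hi * (mu ^ (t0 + 1) / ((t0 + 1).factorial : ℝ)) ≤ exp (28 * W) * exp (-(W * (t0 + 1))) :=
        mul_le_mul hhi (h2.trans h3) (by positivity) (exp_pos _).le
    _ = exp (28 * W - W * (t0 + 1)) := by rw [← Real.exp_add]; congr 1
    _ ≤ exp (-(100 * x ^ 3 * W)) := by
        apply Real.exp_le_exp.2
        rw [ht0]
        nlinarith

/-- the number `t` -/
theorem pp_floor {Z mu x W : ℝ} {tt : ℕ} (hZ : 0 < Z) (htt : tt = ⌊exp (-1) / Z⌋₊)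
    (hmu : 0 ≤ mu) (hxW : 0 ≤ 100 * x ^ 3 * W)
    (h : Z * (exp 2 * mu + 100 * x ^ 3 * W + 1) ≤ exp (-1)) :
    exp 2 * mu ≤ tt ∧ 100 * x ^ 3 * W ≤ tt ∧ Z * tt ≤ exp (-1) := by
  have h1 : exp 2 * mu + 100 * x ^ 3 * W + 1 ≤ exp (-1) / Z := by
    rw [le_div_iff₀ hZ, mul_comm]
    exact h
  have h2 : exp (-1) / Z < tt + 1 := by
    rw [htt]
    exact Nat.lt_floor_add_one _
  have h3 : (tt : ℝ) ≤ exp (-1) / Z := by
    rw [htt]
    exact Nat.floor_le (by positivity)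
  have h4 : 0 ≤ exp 2 * mu := by positivity
  refine ⟨by linarith, by linarith, ?_⟩
  rw [le_div_iff₀ hZ] at h3
  linarith

end Pool.Agent.Helper66.T5
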